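import Mathlib

/-!
Lagrange interpolation on integer nodes: lower bounds for the values of a polynomial.
-/

set_option autoImplicit false

open Polynomial Finset

namespace Pool.Agent.H638R2.Interp

/-- nodes taken from a finite set of integers, with gaps at least `k`. -/
theorem exists_nodes (X : Finset ℤ) (k d : ℕ) (hk : 1 ≤ k) (h : k * d + 1 ≤ X.card) :
    ∃ v : ℕ → ℤ, (∀ i ≤ d, v i ∈ X) ∧ (∀ i < d, v i + k ≤ v (i + 1)) ∧
      (∀ x ∈ X, v 0 ≤ x) ∧ (1 ≤ d → ∀ x ∈ X, x ≤ v d) := by
  classical
  set N := X.card with hN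
  set e := X.orderEmbOfFin (rfl : X.card = N) with he
  have hpos : 0 < N := by omega
  -- index function
  let idx : ℕ → ℕ := fun i => if i < d then i * k else if i = d then (if d = 0 then 0 else N - 1) else 0
  have hidx : ∀ i, i ≤ d → idx i < N := by
    intro i hi
    simp only [idx]
    by_cases h1 : i < d
    · simp only [h1, if_true]
      have : i * k ≤ d * k := Nat.mul_le_mul_right k h1.le
      have : d * k = k * d := mul_comm _ _
      omega
    · have : i = d := by omega
      simp only [this, lt_irrefl, if_false, if_true]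
      split_ifs <;> omega
  let v : ℕ → ℤ := fun i => if h : idx i < N then e ⟨idx i, h⟩ else 0
  have hv : ∀ i (hi : i ≤ d), v i = e ⟨idx i, hidx i hi⟩ := by
    intro i hi
    simp only [v, hidx i hi, dif_pos]
  -- gaps of the order embedding
  have hgap : ∀ a b : ℕ, ∀ (hab : a ≤ b) (hb : b < N),
      e ⟨a, by omega⟩ + ((b - a : ℕ) : ℤ) ≤ e ⟨b, hb⟩ := by
    intro a b hab hb
    induction b, hab using Nat.le_induction with
    | base => simp
    | succ b hab ih =>
      have h1 := ih (by omega)
      have h2 : e ⟨b, by omega⟩ < e ⟨b + 1, hb⟩ := by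
        apply e.strictMono
        simp
      have h3 : ((b + 1 - a : ℕ) : ℤ) = ((b - a : ℕ) : ℤ) + 1 := by omega
      rw [h3]
      omega
  refine ⟨v, ?_, ?_, ?_, ?_⟩
  · intro i hi
    rw [hv i hi]
    exact Finset.orderEmbOfFin_mem _ _ _
  · intro i hi
    rw [hv i hi.le, hv (i + 1) hi]
    have hle : idx i + k ≤ idx (i + 1) := by
      simp only [idx, hi, if_true]
      by_cases h1 : i + 1 < d
      · simp only [h1, if_true]
        have : (i + 1) * k = i * k + k := by ring
        omega
      · have h2 : i + 1 = d := by omega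
        simp only [h2, lt_irrefl, if_false, if_true]
        have h3 : d ≠ 0 := by omega
        simp only [h3, if_false]
        have h4 : k * d = i * k + k := by rw [← h2]; ring
        omega
    have := hgap (idx i) (idx (i + 1)) (by omega) (hidx (i + 1) hi)
    have h5 : (k : ℤ) ≤ ((idx (i + 1) - idx i : ℕ) : ℤ) := by
      have : k ≤ idx (i + 1) - idx i := by omega
      exact_mod_cast this
    linarith
  · intro x hx
    rw [hv 0 (Nat.zero_le _)]
    have h0 : idx 0 = 0 := by
      simp only [idx]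
      by_cases h1 : 0 < d
      · rw [if_pos h1, zero_mul]
      · have h2 : d = 0 := by omega
        rw [if_neg h1, if_pos h2.symm, if_pos h2]
    have hmem : x ∈ Set.range e := by
      rw [he, Finset.range_orderEmbOfFin]
      exact hx
    obtain ⟨j, rfl⟩ := hmem
    apply e.monotone
    rw [Fin.le_def]
    simp [h0]
  · intro hd x hx
    rw [hv d le_rfl]
    have h0 : idx d = N - 1 := by
      simp only [idx, lt_irrefl, if_false, if_true]
      rw [if_neg (by omega)]
    have hmem : x ∈ Set.range e := by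
      rw [he, Finset.range_orderEmbOfFin]
      exact hx
    obtain ⟨j, rfl⟩ := hmem
    apply e.monotone
    rw [Fin.le_def]
    simp only [h0]
    have := j.isLt
    omega

/-- `|i - j|` product. -/
theorem prod_abs_sub (d i : ℕ) (hi : i ≤ d) :
    ∏ j ∈ (range (d + 1)).erase i, |(i : ℝ) - j| = (i.factorial : ℝ) * (d - i).factorial := by
  have hsplit : (range (d + 1)).erase i = range i ∪ (Ico (i + 1) (d + 1)) := by
    ext j
    simp only [mem_erase, mem_range, mem_union, mem_Ico]
    omega
  have hdisj : Disjoint (range i) (Ico (i + 1) (d + 1)) := by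
    rw [Finset.disjoint_left]
    intro j h1 h2
    simp only [mem_range, mem_Ico] at h1 h2
    omega
  rw [hsplit, prod_union hdisj]
  congr 1
  · -- ∏_{j<i} |i - j| = i!
    have : ∏ j ∈ range i, |(i : ℝ) - j| = ∏ j ∈ range i, ((j + 1 : ℕ) : ℝ) := by
      rw [← Finset.prod_range_reflect (fun j => ((j + 1 : ℕ) : ℝ))]
      apply prod_congr rfl
      intro j hj
      rw [mem_range] at hj
      have e1 : i - 1 - j + 1 = i - j := by omega
      rw [e1, Nat.cast_sub hj.le, abs_of_nonneg]
      have : (j : ℝ) ≤ i := by exact_mod_cast hj.le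
      linarith
    rw [this, ← Nat.cast_prod, Finset.prod_range_add_one_eq_factorial]
  · have : ∏ j ∈ Ico (i + 1) (d + 1), |(i : ℝ) - j| = ∏ j ∈ range (d - i), ((j + 1 : ℕ) : ℝ) := by
      rw [Finset.prod_Ico_eq_prod_range]
      have e1 : d + 1 - (i + 1) = d - i := by omega
      rw [e1]
      apply prod_congr rfl
      intro j hj
      have : (i : ℝ) - ((i + 1 + j : ℕ) : ℝ) = -((j + 1 : ℕ) : ℝ) := by push_cast; ring
      rw [this, abs_neg, abs_of_nonneg]
      positivity
    rw [this, ← Nat.cast_prod, Finset.prod_range_add_one_eq_factorial]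

/-- gaps imply separation. -/
theorem gap_abs {v : ℕ → ℝ} {S : ℝ} {d : ℕ} (hS : 0 ≤ S) (hgap : ∀ i < d, v i + S ≤ v (i + 1)) :
    ∀ i ≤ d, ∀ j ≤ d, S * |(i : ℝ) - j| ≤ |v i - v j| := by
  have hmono : ∀ i j, i ≤ j → j ≤ d → v i + S * ((j : ℝ) - i) ≤ v j := by
    intro i j hij
    induction j, hij using Nat.le_induction with
    | base => intro _; simp
    | succ j hij ih =>
      intro hj
      have h1 := ih (by omega)
      have h2 := hgap j (by omega)
      push_cast
      nlinarith
  intro i hi j hj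
  rcases le_total i j with h | h
  · have h1 := hmono i j h hj
    have h2 : (i : ℝ) ≤ j := by exact_mod_cast h
    rw [abs_sub_comm, abs_of_nonneg (by linarith), abs_sub_comm, abs_of_nonneg]
    · linarith
    · have : 0 ≤ S * ((j : ℝ) - i) := mul_nonneg hS (by linarith)
      linarith
  · have h1 := hmono j i h hi
    have h2 : (j : ℝ) ≤ i := by exact_mod_cast h
    rw [abs_of_nonneg (by linarith : (0 : ℝ) ≤ (i : ℝ) - j), abs_of_nonneg]
    · linarith
    · have : 0 ≤ S * ((i : ℝ) - j) := mul_nonneg hS (by linarith)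
      linarith

theorem prod_lower {v : ℕ → ℝ} {S : ℝ} {d : ℕ} (hS : 0 ≤ S) (hgap : ∀ i < d, v i + S ≤ v (i + 1))
    (i : ℕ) (hi : i ≤ d) :
    S ^ d * ((i.factorial : ℝ) * (d - i).factorial) ≤ ∏ j ∈ (range (d + 1)).erase i, |v i - v j| := by
  rw [← prod_abs_sub d i hi]
  have hc : ((range (d + 1)).erase i).card = d := by
    rw [card_erase_of_mem (by rw [mem_range]; omega), card_range]
    omega
  calc S ^ d * ∏ j ∈ (range (d + 1)).erase i, |(i : ℝ) - j|
      = ∏ j ∈ (range (d + 1)).erase i, (S * |(i : ℝ) - j|) := by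
        rw [prod_mul_distrib, prod_const, hc]
    _ ≤ _ := by
        apply prod_le_prod
        · intro j _; positivity
        · intro j hj
          rw [mem_erase, mem_range] at hj
          exact gap_abs hS hgap i hi j (by omega)

theorem sum_inv_factorial (d : ℕ) :
    ∑ i ∈ range (d + 1), (1 : ℝ) / ((i.factorial : ℝ) * (d - i).factorial) = 2 ^ d / d.factorial := by
  have h := Nat.sum_range_choose d
  have h2 : ∑ i ∈ range (d + 1), ((d.choose i : ℕ) : ℝ) = 2 ^ d := by exact_mod_cast h
  rw [← h2, sum_div]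
  apply sum_congr rfl
  intro i hi
  rw [mem_range] at hi
  have hi' : i ≤ d := by omega
  rw [Nat.choose_eq_factorial_div_factorial hi', Nat.cast_div (Nat.factorial_mul_factorial_dvd_factorial hi')]
  · push_cast
    have h1 : (d.factorial : ℝ) ≠ 0 := by exact_mod_cast d.factorial_ne_zero
    have h2 : (i.factorial : ℝ) ≠ 0 := by exact_mod_cast i.factorial_ne_zero
    have h3 : ((d - i).factorial : ℝ) ≠ 0 := by exact_mod_cast (d - i).factorial_ne_zero
    field_simp
  · have h2 : (i.factorial : ℝ) ≠ 0 := by exact_mod_cast i.factorial_ne_zero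
    have h3 : ((d - i).factorial : ℝ) ≠ 0 := by exact_mod_cast (d - i).factorial_ne_zero
    push_cast
    exact mul_ne_zero h2 h3

/-- Leading coefficient in terms of values at `d+1` nodes. -/
theorem leadingCoeff_formula {P : ℝ[X]} {d : ℕ} (hd : P.natDegree = d) (hP : P ≠ 0) {v : ℕ → ℝ}
    (hinj : Set.InjOn v (range (d + 1) : Finset ℕ)) :
    P.leadingCoeff = ∑ i ∈ range (d + 1), P.eval (v i) / ∏ j ∈ (range (d + 1)).erase i, (v i - v j) := by
  apply Lagrange.leadingCoeff_eq_sum hinj
  rw [card_range, degree_eq_natDegree hP, hd]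
  push_cast
  rfl

theorem injOn_of_gap {v : ℕ → ℝ} {S : ℝ} {d : ℕ} (hS : 0 < S) (hgap : ∀ i < d, v i + S ≤ v (i + 1)) :
    Set.InjOn v (range (d + 1) : Finset ℕ) := by
  intro i hi j hj hij
  simp only [coe_range, Set.mem_Iio] at hi hj
  by_contra hne
  have h1 := gap_abs hS.le hgap i (by omega) j (by omega)
  rw [hij, sub_self, abs_zero] at h1
  have h2 : 0 < |(i : ℝ) - j| := by
    rw [abs_pos, sub_ne_zero]
    exact_mod_cast hne
  have : 0 < S * |(i : ℝ) - j| := mul_pos hS h2
  linarith

/-- the basic inequality. -/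
theorem leadingCoeff_bound {P : ℝ[X]} {d : ℕ} (hd : P.natDegree = d) (hP : P ≠ 0) {v : ℕ → ℝ}
    {S B : ℝ} (hS : 0 < S) (hgap : ∀ i < d, v i + S ≤ v (i + 1)) (hB : ∀ i ≤ d, |P.eval (v i)| ≤ B) :
    |P.leadingCoeff| * (S ^ d * d.factorial) ≤ B * 2 ^ d := by
  rw [leadingCoeff_formula hd hP (injOn_of_gap hS hgap)]
  have hB0 : 0 ≤ B := (abs_nonneg _).trans (hB 0 (Nat.zero_le _))
  have h1 : |∑ i ∈ range (d + 1), P.eval (v i) / ∏ j ∈ (range (d + 1)).erase i, (v i - v j)| ≤
      ∑ i ∈ range (d + 1), B / S ^ d * (1 / ((i.factorial : ℝ) * (d - i).factorial)) := by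
    refine (abs_sum_le_sum_abs _ _).trans ?_
    apply sum_le_sum
    intro i hi
    rw [mem_range] at hi
    rw [abs_div, Finset.abs_prod]
    have hlow := prod_lower hS.le hgap i (by omega)
    have hpos : 0 < S ^ d * ((i.factorial : ℝ) * (d - i).factorial) := by positivity
    calc |eval (v i) P| / ∏ j ∈ (range (d + 1)).erase i, |v i - v j|
        ≤ B / (S ^ d * ((i.factorial : ℝ) * (d - i).factorial)) := by
          apply div_le_div₀ hB0 (hB i (by omega)) hpos hlow
      _ = _ := by field_simp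
  rw [← mul_sum, sum_inv_factorial] at h1
  have hSd : 0 < S ^ d := by positivity
  have hdf : (0 : ℝ) < d.factorial := by exact_mod_cast d.factorial_pos
  calc _ ≤ B / S ^ d * (2 ^ d / d.factorial) * (S ^ d * d.factorial) := by
        apply mul_le_mul_of_nonneg_right h1 (by positivity)
    _ = B * 2 ^ d := by field_simp

/-- An integer polynomial of degree `d` takes a value `≥ d!/2^d` on any set of more than `d` integers. -/
theorem exists_large_value {p : ℤ[X]} (hp : p ≠ 0) {X : Finset ℤ} (hX : p.natDegree + 1 ≤ X.card) :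
    ∃ x ∈ X, ((p.natDegree).factorial : ℤ) ≤ 2 ^ p.natDegree * |p.eval x| := by
  obtain ⟨v, hvX, hgap, -, -⟩ := exists_nodes X 1 p.natDegree le_rfl (by omega)
  by_contra hcon
  push Not at hcon
  have hinj : Function.Injective (Int.castRingHom ℝ) := Int.cast_injective
  set P : ℝ[X] := p.map (Int.castRingHom ℝ) with hPdef
  have hdeg : P.natDegree = p.natDegree := natDegree_map_eq_of_injective hinj p
  have hP0 : P ≠ 0 := by rwa [hPdef, Ne, Polynomial.map_eq_zero_iff hinj]
  have heval : ∀ i, P.eval ((v i : ℤ) : ℝ) = ((p.eval (v i) : ℤ) : ℝ) := by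
    intro i
    rw [hPdef]
    simp
  set d := p.natDegree with hd
  have hlc : (1 : ℝ) ≤ |P.leadingCoeff| := by
    rw [hPdef, leadingCoeff_map_of_injective hinj]
    have h1 : p.leadingCoeff ≠ 0 := leadingCoeff_ne_zero.2 hp
    have h2 : 1 ≤ |p.leadingCoeff| := Int.one_le_abs h1
    have h3 : ((|p.leadingCoeff| : ℤ) : ℝ) = |((p.leadingCoeff : ℤ) : ℝ)| := by push_cast; rfl
    have h4 : (1 : ℝ) ≤ ((|p.leadingCoeff| : ℤ) : ℝ) := by exact_mod_cast h2
    rw [h3] at h4
    simpa using h4
  -- a uniform strict bound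
  set B : ℝ := ((d.factorial : ℝ) - 1) / 2 ^ d with hB
  have hB' : ∀ i ≤ d, |P.eval ((v i : ℤ) : ℝ)| ≤ B := by
    intro i hi
    rw [heval, hB, le_div_iff₀ (by positivity)]
    have h1 := hcon (v i) (hvX i hi)
    have h2 : 2 ^ d * |p.eval (v i)| ≤ (d.factorial : ℤ) - 1 := by omega
    have h3 : ((2 ^ d * |p.eval (v i)| : ℤ) : ℝ) ≤ (((d.factorial : ℤ) - 1 : ℤ) : ℝ) := by
      exact_mod_cast h2
    push_cast at h3
    linarith
  have hmain := leadingCoeff_bound (v := fun i => ((v i : ℤ) : ℝ)) hdeg hP0 (S := 1) (B := B) one_pos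
    (by
      intro i hi
      have := hgap i hi
      exact_mod_cast this) hB'
  rw [one_pow, one_mul, hB] at hmain
  have h2d : (0 : ℝ) < 2 ^ d := by positivity
  have h5 : ((d.factorial : ℝ) - 1) / 2 ^ d * 2 ^ d = (d.factorial : ℝ) - 1 := by field_simp
  rw [h5] at hmain
  have h6 : (0 : ℝ) < d.factorial := by exact_mod_cast d.factorial_pos
  nlinarith

theorem factorial_div_two_pow_mono {a b : ℕ} (ha : 1 ≤ a) (hab : a ≤ b) {y : ℤ}
    (h : (b.factorial : ℤ) ≤ 2 ^ b * y) : (a.factorial : ℤ) ≤ 2 ^ a * y := by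
  induction b, hab using Nat.le_induction with
  | base => exact h
  | succ b hab ih =>
    apply ih
    rw [Nat.factorial_succ, pow_succ] at h
    push_cast at h
    have hb : (1 : ℤ) ≤ b := by exact_mod_cast (ha.trans hab)
    have hf : (0 : ℤ) < b.factorial := by exact_mod_cast b.factorial_pos
    have h1 : 2 * (b.factorial : ℤ) ≤ ((b : ℤ) + 1) * b.factorial := by nlinarith
    have h2 : (2 : ℤ) ^ b * 2 * y = 2 * (2 ^ b * y) := by ring
    linarith

end Pool.Agent.H638R2.Interp
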