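import Mathlib
import Pool.Agent.H638R2.Interp

/-!
Separated solutions of `g^n(x) = c` for a real polynomial `g`: their number is bounded in terms of the degree
of `g` only.
-/

set_option autoImplicit false

open Polynomial Finset

namespace Pool.Agent.H638R2.Iter

open Pool.Agent.H638R2.Interp

/-- nodes taken from a finite `1`-separated set of reals, with gaps at least `k`. -/
theorem exists_nodes_real (X : Finset ℝ) (hsep : ∀ x ∈ X, ∀ y ∈ X, x ≠ y → 1 ≤ |x - y|) (k d : ℕ)
    (h : k * d + 1 ≤ X.card) :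
    ∃ v : ℕ → ℝ, (∀ i ≤ d, v i ∈ X) ∧ (∀ i < d, v i + k ≤ v (i + 1)) := by
  classical
  set N := X.card with hN
  set e := X.orderEmbOfFin (rfl : X.card = N) with he
  have hidx : ∀ i, i ≤ d → i * k < N := by
    intro i hi
    have : i * k ≤ d * k := Nat.mul_le_mul_right k hi
    have : d * k = k * d := mul_comm _ _
    omega
  let v : ℕ → ℝ := fun i => if h : i * k < N then e ⟨i * k, h⟩ else 0
  have hv : ∀ i (hi : i ≤ d), v i = e ⟨i * k, hidx i hi⟩ := by
    intro i hi
    simp only [v, hidx i hi, dif_pos]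
  have hgap : ∀ a b : ℕ, ∀ (hab : a ≤ b) (hb : b < N),
      e ⟨a, by omega⟩ + ((b - a : ℕ) : ℝ) ≤ e ⟨b, hb⟩ := by
    intro a b hab hb
    induction b, hab using Nat.le_induction with
    | base => simp
    | succ b hab ih =>
      have h1 := ih (by omega)
      have h2 : e ⟨b, by omega⟩ < e ⟨b + 1, hb⟩ := by
        apply e.strictMono
        simp
      have h3 : ((b + 1 - a : ℕ) : ℝ) = ((b - a : ℕ) : ℝ) + 1 := by
        have : b + 1 - a = (b - a) + 1 := by omega
        rw [this]; push_cast; ring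
      have h4 := hsep _ (Finset.orderEmbOfFin_mem X rfl ⟨b + 1, hb⟩) _
        (Finset.orderEmbOfFin_mem X rfl ⟨b, by omega⟩) (ne_of_gt h2)
      rw [abs_of_pos (sub_pos.2 h2)] at h4
      rw [h3]
      have h5 : e ⟨b + 1, hb⟩ = X.orderEmbOfFin (rfl : X.card = N) ⟨b + 1, hb⟩ := rfl
      linarith
  refine ⟨v, ?_, ?_⟩
  · intro i hi
    rw [hv i hi]
    exact Finset.orderEmbOfFin_mem _ _ _
  · intro i hi
    rw [hv i hi.le, hv (i + 1) hi]
    have h0 : (i + 1) * k = i * k + k := by ring
    have := hgap (i * k) ((i + 1) * k) (by omega) (hidx (i + 1) hi)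
    have h5 : (((i + 1) * k - i * k : ℕ) : ℝ) = k := by
      have : (i + 1) * k - i * k = k := by omega
      rw [this]
    rw [h5] at this
    exact this

/-- removing the top term leaves a polynomial of degree less than the number of nodes. -/
theorem rem_degree {g : ℝ[X]} {d : ℕ} (hdeg : g.natDegree = d + 1) (v : ℕ → ℝ) :
    (g - C g.leadingCoeff * Lagrange.nodal (range (d + 1)) v).degree < (range (d + 1)).card := by
  have hg0 : g ≠ 0 := by rintro rfl; simp at hdeg
  have hlc : g.leadingCoeff ≠ 0 := leadingCoeff_ne_zero.2 hg0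
  have hNd : (C g.leadingCoeff * Lagrange.nodal (range (d + 1)) v).degree = g.degree := by
    rw [degree_C_mul hlc, Lagrange.degree_nodal, degree_eq_natDegree hg0, hdeg, card_range]
  have hNl : (C g.leadingCoeff * Lagrange.nodal (range (d + 1)) v).leadingCoeff = g.leadingCoeff := by
    rw [leadingCoeff_mul, leadingCoeff_C, Lagrange.nodal_monic.leadingCoeff, mul_one]
  have h := degree_sub_lt_left hNd.symm hg0 hNl.symm
  rw [card_range]
  rw [degree_eq_natDegree hg0, hdeg] at h
  exact h

/-- interpolation identity with `d+1` nodes for a polynomial of degree `d+1`. -/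
theorem expand {g : ℝ[X]} {d : ℕ} (hdeg : g.natDegree = d + 1) {v : ℕ → ℝ}
    (hinj : Set.InjOn v (range (d + 1) : Finset ℕ)) (z : ℝ) :
    g.eval z = g.leadingCoeff * ∏ i ∈ range (d + 1), (z - v i) +
      ∑ i ∈ range (d + 1), g.eval (v i) / (∏ j ∈ (range (d + 1)).erase i, (v i - v j)) *
        ∏ j ∈ (range (d + 1)).erase i, (z - v j) := by
  classical
  set N : ℝ[X] := Lagrange.nodal (range (d + 1)) v with hN
  set Q : ℝ[X] := g - C g.leadingCoeff * N with hQ
  have h1 := Lagrange.eq_interpolate hinj (rem_degree hdeg v)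
  rw [← hN, ← hQ] at h1
  have h2 : g.eval z = g.leadingCoeff * N.eval z + Q.eval z := by
    rw [hQ]; simp
  have h3 : ∀ i ∈ range (d + 1), Q.eval (v i) = g.eval (v i) := by
    intro i hi
    rw [hQ, eval_sub, eval_mul, hN, Lagrange.eval_nodal_at_node hi, mul_zero, sub_zero]
  rw [h2, hN, Lagrange.eval_nodal, h1, Lagrange.interpolate_apply, eval_finsetSum]
  congr 1
  apply sum_congr rfl
  intro i hi
  rw [eval_mul, eval_C, h3 i hi, Lagrange.basis, eval_prod]
  have h4 : ∀ j ∈ (range (d + 1)).erase i, (Lagrange.basisDivisor (v i) (v j)).eval z =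
      (v i - v j)⁻¹ * (z - v j) := by
    intro j _
    simp [Lagrange.basisDivisor]
  rw [prod_congr rfl h4, prod_mul_distrib, prod_inv_distrib]
  ring

/-- the second coefficient in terms of values. -/
theorem second_coeff {g : ℝ[X]} {d : ℕ} (hdeg : g.natDegree = d + 1) {v : ℕ → ℝ}
    (hinj : Set.InjOn v (range (d + 1) : Finset ℕ)) :
    ∑ i ∈ range (d + 1), g.eval (v i) / (∏ j ∈ (range (d + 1)).erase i, (v i - v j)) =
      g.coeff d + g.leadingCoeff * ∑ i ∈ range (d + 1), v i := by
  classical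
  set N : ℝ[X] := Lagrange.nodal (range (d + 1)) v with hN
  set Q : ℝ[X] := g - C g.leadingCoeff * N with hQ
  have h1 := Lagrange.coeff_eq_sum hinj (rem_degree hdeg v)
  rw [← hN, ← hQ, card_range, Nat.add_sub_cancel] at h1
  have h3 : ∀ i ∈ range (d + 1), Q.eval (v i) = g.eval (v i) := by
    intro i hi
    rw [hQ, eval_sub, eval_mul, hN, Lagrange.eval_nodal_at_node hi, mul_zero, sub_zero]
  have h4 : N.coeff d = - ∑ i ∈ range (d + 1), v i := by
    have := prod_X_sub_C_coeff_card_pred (range (d + 1)) v (by simp)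
    rw [card_range, Nat.add_sub_cancel] at this
    rw [hN, Lagrange.nodal_eq]
    exact this
  have h5 : Q.coeff d = g.coeff d + g.leadingCoeff * ∑ i ∈ range (d + 1), v i := by
    rw [hQ, coeff_sub, coeff_C_mul, h4]; ring
  rw [← h5, h1]
  apply sum_congr rfl
  intro i hi
  rw [h3 i hi]

/-- bound for the interpolation weights. -/
theorem weights {v : ℕ → ℝ} {S : ℝ} {d : ℕ} (hS : 0 < S) (hgap : ∀ i < d, v i + S ≤ v (i + 1))
    {r : ℕ → ℝ} {B : ℝ} (hr : ∀ i ≤ d, |r i| ≤ B) :
    ∑ i ∈ range (d + 1), |r i / ∏ j ∈ (range (d + 1)).erase i, (v i - v j)| ≤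
      B / (S ^ d * d.factorial / 2 ^ d) := by
  have hB0 : 0 ≤ B := (abs_nonneg _).trans (hr 0 (Nat.zero_le _))
  have h1 : ∑ i ∈ range (d + 1), |r i / ∏ j ∈ (range (d + 1)).erase i, (v i - v j)| ≤
      ∑ i ∈ range (d + 1), B / S ^ d * (1 / ((i.factorial : ℝ) * (d - i).factorial)) := by
    apply sum_le_sum
    intro i hi
    rw [mem_range] at hi
    rw [abs_div, Finset.abs_prod]
    have hlow := prod_lower hS.le hgap i (by omega)
    have hpos : 0 < S ^ d * ((i.factorial : ℝ) * (d - i).factorial) := by positivity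
    calc |r i| / ∏ j ∈ (range (d + 1)).erase i, |v i - v j|
        ≤ B / (S ^ d * ((i.factorial : ℝ) * (d - i).factorial)) := by
          apply div_le_div₀ hB0 (hr i (by omega)) hpos hlow
      _ = _ := by field_simp
  rw [← mul_sum, sum_inv_factorial] at h1
  have hSd : 0 < S ^ d := by positivity
  have hdf : (0 : ℝ) < d.factorial := by exact_mod_cast d.factorial_pos
  calc _ ≤ B / S ^ d * (2 ^ d / d.factorial) := h1
    _ = _ := by field_simp

/-- if the values at `d+2` nodes lie in an interval of length `D`, then `D` is much larger than the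
diameter of the set of nodes. -/
theorem spread {g : ℝ[X]} {d : ℕ} (hd : 1 ≤ d) (hdeg : g.natDegree = d + 1)
    (hlc : 1 ≤ |g.leadingCoeff|) {v : ℕ → ℝ} {S : ℝ} (hS : 0 < S)
    (hgap : ∀ i < d + 1, v i + S ≤ v (i + 1)) {a b : ℝ}
    (hab : ∀ i ≤ d + 1, a ≤ g.eval (v i) ∧ g.eval (v i) ≤ b) :
    v (d + 1) - v 0 ≤ (b - a) / (S ^ d * d.factorial / 2 ^ d) := by
  set G : ℝ[X] := g - C ((a + b) / 2) with hG
  have hGdeg : G.natDegree = d + 1 := by rw [hG, natDegree_sub_C, hdeg]
  have hcoeff : ∀ k, 1 ≤ k → G.coeff k = g.coeff k := by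
    intro k hk
    rw [hG, coeff_sub, coeff_C, if_neg (by omega), sub_zero]
  have hGlc : G.leadingCoeff = g.leadingCoeff := by
    rw [leadingCoeff, leadingCoeff, hGdeg, hdeg, hcoeff _ (by omega)]
  have hval : ∀ i ≤ d + 1, |G.eval (v i)| ≤ (b - a) / 2 := by
    intro i hi
    obtain ⟨h1, h2⟩ := hab i hi
    rw [hG, eval_sub, eval_C, abs_le]
    constructor <;> linarith
  have hgap0 : ∀ i < d, v i + S ≤ v (i + 1) := fun i hi => hgap i (by omega)
  have hgap1 : ∀ i < d, (fun i => v (i + 1)) i + S ≤ (fun i => v (i + 1)) (i + 1) :=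
    fun i hi => hgap (i + 1) (by omega)
  have e0 := second_coeff hGdeg (injOn_of_gap hS hgap0)
  have e1 := second_coeff hGdeg (injOn_of_gap hS hgap1)
  have w0 := weights hS hgap0 (r := fun i => G.eval (v i)) (B := (b - a) / 2)
    (fun i hi => hval i (by omega))
  have w1 := weights hS hgap1 (r := fun i => G.eval (v (i + 1))) (B := (b - a) / 2)
    (fun i hi => hval (i + 1) (by omega))
  have hsum : ∑ i ∈ range (d + 1), v (i + 1) - ∑ i ∈ range (d + 1), v i = v (d + 1) - v 0 := by
    rw [← sum_sub_distrib, Finset.sum_range_sub]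
  have hmain : G.leadingCoeff * (v (d + 1) - v 0) =
      (∑ i ∈ range (d + 1), G.eval (v (i + 1)) / (∏ j ∈ (range (d + 1)).erase i, (v (i + 1) - v (j + 1))))
      - ∑ i ∈ range (d + 1), G.eval (v i) / (∏ j ∈ (range (d + 1)).erase i, (v i - v j)) := by
    rw [e0]
    rw [e1, ← hsum]
    ring
  have hmono : v 0 ≤ v (d + 1) := by
    have := gap_abs hS.le hgap
    have h2 : ∀ k, k ≤ d + 1 → v 0 ≤ v k := by
      intro k
      induction k with
      | zero => intro _; exact le_rfl
      | succ k ih =>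
        intro hk
        have h3 := ih (by omega)
        have h4 := hgap k (by omega)
        linarith
    exact h2 _ le_rfl
  have hfin : |G.leadingCoeff * (v (d + 1) - v 0)| ≤
      (b - a) / 2 / (S ^ d * d.factorial / 2 ^ d) + (b - a) / 2 / (S ^ d * d.factorial / 2 ^ d) := by
    rw [hmain]
    refine (abs_sub _ _).trans ?_
    apply add_le_add
    · exact (abs_sum_le_sum_abs _ _).trans w1
    · exact (abs_sum_le_sum_abs _ _).trans w0
  rw [abs_mul, hGlc, abs_of_nonneg (by linarith : 0 ≤ v (d + 1) - v 0)] at hfin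
  have h5 : (b - a) / 2 / (S ^ d * d.factorial / 2 ^ d) + (b - a) / 2 / (S ^ d * d.factorial / 2 ^ d) =
      (b - a) / (S ^ d * d.factorial / 2 ^ d) := by ring
  rw [h5] at hfin
  nlinarith

/-- `A ∏ (z - v i) + ∑ w i ∏_{j ≠ i} (z - v j)`. -/
noncomputable def F (A : ℝ) (v w : ℕ → ℝ) (d : ℕ) (z : ℝ) : ℝ :=
  A * ∏ i ∈ range (d + 1), (z - v i) +
    ∑ i ∈ range (d + 1), w i * ∏ j ∈ (range (d + 1)).erase i, (z - v j)

theorem F_upper {A : ℝ} {v w : ℕ → ℝ} {d : ℕ} {u R z : ℝ} (hw : ∑ i ∈ range (d + 1), |w i| ≤ u)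
    (hR : ∀ i ∈ range (d + 1), |z - v i| ≤ R) (hR0 : 0 ≤ R) :
    |F A v w d z| ≤ |A| * R ^ (d + 1) + u * R ^ d := by
  unfold F
  refine (abs_add_le _ _).trans ?_
  apply add_le_add
  · rw [abs_mul, abs_prod]
    apply mul_le_mul_of_nonneg_left _ (abs_nonneg _)
    calc ∏ i ∈ range (d + 1), |z - v i| ≤ ∏ _i ∈ range (d + 1), R :=
          prod_le_prod (fun i _ => abs_nonneg _) hR
      _ = R ^ (d + 1) := by rw [prod_const, card_range]
  · refine (abs_sum_le_sum_abs _ _).trans ?_
    calc ∑ i ∈ range (d + 1), |w i * ∏ j ∈ (range (d + 1)).erase i, (z - v j)|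
        ≤ ∑ i ∈ range (d + 1), |w i| * R ^ d := by
          apply sum_le_sum
          intro i hi
          rw [abs_mul, abs_prod]
          apply mul_le_mul_of_nonneg_left _ (abs_nonneg _)
          calc ∏ j ∈ (range (d + 1)).erase i, |z - v j| ≤ ∏ _j ∈ (range (d + 1)).erase i, R :=
                prod_le_prod (fun i _ => abs_nonneg _) (fun j hj => hR j (mem_of_mem_erase hj))
            _ = R ^ d := by rw [prod_const, card_erase_of_mem hi, card_range, Nat.add_sub_cancel]
      _ = (∑ i ∈ range (d + 1), |w i|) * R ^ d := by rw [sum_mul]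
      _ ≤ u * R ^ d := mul_le_mul_of_nonneg_right hw (by positivity)

theorem F_factor {A : ℝ} {v w : ℕ → ℝ} {d : ℕ} {z : ℝ} (hz : ∀ i ∈ range (d + 1), z - v i ≠ 0) :
    F A v w d z = (∏ i ∈ range (d + 1), (z - v i)) * (A + ∑ i ∈ range (d + 1), w i / (z - v i)) := by
  unfold F
  rw [mul_add, mul_sum, mul_comm A]
  congr 1
  apply sum_congr rfl
  intro i hi
  rw [← mul_prod_erase _ _ hi]
  have := hz i hi
  field_simp

theorem F_lower {A : ℝ} {v w : ℕ → ℝ} {d : ℕ} {u r z : ℝ} (hw : ∑ i ∈ range (d + 1), |w i| ≤ u)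
    (hr : ∀ i ∈ range (d + 1), r ≤ |z - v i|) (hr0 : 0 < r) (hur : u ≤ |A| * r) :
    |A| * r ^ (d + 1) - u * r ^ d ≤ |F A v w d z| := by
  have hz : ∀ i ∈ range (d + 1), z - v i ≠ 0 := by
    intro i hi h
    have := hr i hi
    rw [h, abs_zero] at this
    linarith
  rw [F_factor hz, abs_mul, abs_prod]
  have h1 : |∑ i ∈ range (d + 1), w i / (z - v i)| ≤ u / r := by
    refine (abs_sum_le_sum_abs _ _).trans ?_
    calc ∑ i ∈ range (d + 1), |w i / (z - v i)| ≤ ∑ i ∈ range (d + 1), |w i| / r := by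
          apply sum_le_sum
          intro i hi
          rw [abs_div]
          exact div_le_div_of_nonneg_left (abs_nonneg _) hr0 (hr i hi)
      _ = (∑ i ∈ range (d + 1), |w i|) / r := by rw [sum_div]
      _ ≤ u / r := div_le_div_of_nonneg_right hw hr0.le
  have h2 : |A| - u / r ≤ |A + ∑ i ∈ range (d + 1), w i / (z - v i)| := by
    have := abs_sub_abs_le_abs_sub A (-∑ i ∈ range (d + 1), w i / (z - v i))
    rw [abs_neg, sub_neg_eq_add] at this
    linarith
  have h3 : r ^ (d + 1) ≤ ∏ i ∈ range (d + 1), |z - v i| := by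
    calc r ^ (d + 1) = ∏ _i ∈ range (d + 1), r := by rw [prod_const, card_range]
      _ ≤ _ := prod_le_prod (fun _ _ => hr0.le) hr
  have h4 : 0 ≤ |A| - u / r := by
    rw [sub_nonneg, div_le_iff₀ hr0]
    exact hur
  calc |A| * r ^ (d + 1) - u * r ^ d = r ^ (d + 1) * (|A| - u / r) := by
        field_simp
        ring
    _ ≤ _ := mul_le_mul h3 h2 h4 (by positivity)

theorem F_signed {A : ℝ} {v w : ℕ → ℝ} {d : ℕ} {z σ α : ℝ} (hσ : σ ^ 2 = 1) (hα : α * A = |A|)
    (hz : ∀ i ∈ range (d + 1), 0 < σ * (z - v i)) :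
    α * σ ^ (d + 1) * F A v w d z = (∏ i ∈ range (d + 1), (σ * (z - v i))) *
      (|A| + α * σ * ∑ i ∈ range (d + 1), w i / (σ * (z - v i))) := by
  have hz' : ∀ i ∈ range (d + 1), z - v i ≠ 0 := by
    intro i hi h
    have := hz i hi
    rw [h, mul_zero] at this
    linarith
  have hσ0 : σ ≠ 0 := by
    rintro rfl
    norm_num at hσ
  rw [F_factor hz', prod_mul_distrib, prod_const, card_range]
  have h1 : ∑ i ∈ range (d + 1), w i / (σ * (z - v i)) = σ * ∑ i ∈ range (d + 1), w i / (z - v i) := by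
    rw [mul_sum]
    apply sum_congr rfl
    intro i hi
    have h2 := hz' i hi
    have h3 : σ⁻¹ = σ := inv_eq_of_mul_eq_one_left (by rw [← sq, hσ])
    rw [div_mul_eq_div_div_swap, div_eq_mul_inv _ σ, h3]
    ring
  rw [h1, ← hα]
  have h4 : α * σ * (σ * ∑ i ∈ range (d + 1), w i / (z - v i)) =
      α * ∑ i ∈ range (d + 1), w i / (z - v i) := by
    calc _ = α * (σ ^ 2) * ∑ i ∈ range (d + 1), w i / (z - v i) := by ring
      _ = _ := by rw [hσ, mul_one]
  rw [h4]
  ring

theorem sum_small {w a : ℕ → ℝ} {d : ℕ} {u r : ℝ} (hw : ∑ i ∈ range (d + 1), |w i| ≤ u)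
    (ha : ∀ i ∈ range (d + 1), r ≤ a i) (hr0 : 0 < r) :
    |∑ i ∈ range (d + 1), w i / a i| ≤ u / r := by
  refine (abs_sum_le_sum_abs _ _).trans ?_
  calc ∑ i ∈ range (d + 1), |w i / a i| ≤ ∑ i ∈ range (d + 1), |w i| / r := by
        apply sum_le_sum
        intro i hi
        have h1 := ha i hi
        rw [abs_div, abs_of_pos (hr0.trans_le h1)]
        exact div_le_div_of_nonneg_left (abs_nonneg _) hr0 h1
    _ = (∑ i ∈ range (d + 1), |w i|) / r := by rw [sum_div]
    _ ≤ u / r := div_le_div_of_nonneg_right hw hr0.le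

theorem far_lower {A : ℝ} {v w : ℕ → ℝ} {d : ℕ} {u r z σ α : ℝ} (hσ : σ ^ 2 = 1)
    (hα : α * A = |A|) (hα1 : |α| = 1) (hA : 1 ≤ |A|) (hw : ∑ i ∈ range (d + 1), |w i| ≤ u)
    (hz : ∀ i ∈ range (d + 1), r ≤ σ * (z - v i)) (hr0 : 0 < r) (hur : 2 * u ≤ r) :
    r ^ (d + 1) / 2 ≤ α * σ ^ (d + 1) * F A v w d z := by
  rw [F_signed hσ hα (fun i hi => hr0.trans_le (hz i hi))]
  have h1 := sum_small hw hz hr0
  have hσ1 : |σ| = 1 := by
    have : |σ| ^ 2 = 1 := by rw [sq_abs, hσ]
    nlinarith [abs_nonneg σ]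
  have h2 : |α * σ * ∑ i ∈ range (d + 1), w i / (σ * (z - v i))| ≤ u / r := by
    rw [abs_mul, abs_mul, hα1, hσ1, one_mul, one_mul]
    exact h1
  have h3 : u / r ≤ 1 / 2 := by
    rw [div_le_div_iff₀ hr0 (by norm_num)]
    linarith
  have h4 := neg_abs_le (α * σ * ∑ i ∈ range (d + 1), w i / (σ * (z - v i)))
  have h5 : r ^ (d + 1) ≤ ∏ i ∈ range (d + 1), (σ * (z - v i)) := by
    calc r ^ (d + 1) = ∏ _i ∈ range (d + 1), r := by rw [prod_const, card_range]
      _ ≤ _ := prod_le_prod (fun _ _ => hr0.le) hz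
  calc r ^ (d + 1) / 2 = r ^ (d + 1) * (1 / 2) := by ring
    _ ≤ _ := mul_le_mul h5 (by linarith) (by norm_num) (by
        exact prod_nonneg (fun i hi => hr0.le.trans (hz i hi)))

theorem far_mono {A : ℝ} {v w : ℕ → ℝ} {d : ℕ} {u r z z' σ α : ℝ} (hσ : σ ^ 2 = 1)
    (hα : α * A = |A|) (hα1 : |α| = 1) (hA : 1 ≤ |A|) (hw : ∑ i ∈ range (d + 1), |w i| ≤ u)
    (hz : ∀ i ∈ range (d + 1), r ≤ σ * (z - v i)) (hr0 : 0 < r) (hur : 2 * u ≤ r)
    (hzz : 0 < σ * (z' - z)) :
    α * σ ^ (d + 1) * F A v w d z < α * σ ^ (d + 1) * F A v w d z' := by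
  set s := range (d + 1) with hs
  set c := σ * (z' - z) with hc
  have hu0 : 0 ≤ u := (sum_nonneg (fun i _ => abs_nonneg _)).trans hw
  have hz' : ∀ i ∈ s, σ * (z' - v i) = σ * (z - v i) + c := by
    intro i _
    rw [hc]; ring
  have hpos : ∀ i ∈ s, 0 < σ * (z - v i) := fun i hi => hr0.trans_le (hz i hi)
  have hpos' : ∀ i ∈ s, 0 < σ * (z' - v i) := by
    intro i hi
    rw [hz' i hi]
    have := hpos i hi
    linarith
  rw [F_signed hσ hα hpos, F_signed hσ hα hpos']
  set a : ℕ → ℝ := fun i => σ * (z - v i) with ha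
  set a' : ℕ → ℝ := fun i => σ * (z' - v i) with ha'
  have haa : ∀ i ∈ s, a' i = a i + c := hz'
  obtain ⟨i0, hi0, hmin⟩ := exists_min_image s a ⟨0, by rw [hs, mem_range]; omega⟩
  set m := a i0 with hm
  have hm0 : 0 < m := hpos i0 hi0
  have hmr : r ≤ m := hz i0 hi0
  have hσ1 : |σ| = 1 := by
    have : |σ| ^ 2 = 1 := by rw [sq_abs, hσ]
    nlinarith [abs_nonneg σ]
  -- products
  set p := ∏ i ∈ s, a i with hp
  set p' := ∏ i ∈ s, a' i with hp'
  have hp0 : 0 < p := prod_pos hpos
  have hp'0 : 0 < p' := prod_pos hpos'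
  have hpp : (m + c) * p ≤ m * p' := by
    rw [hp, hp', ← mul_prod_erase s a hi0, ← mul_prod_erase s a' hi0, haa i0 hi0]
    have h1 : ∏ i ∈ s.erase i0, a i ≤ ∏ i ∈ s.erase i0, a' i := by
      apply prod_le_prod
      · intro i hi
        exact (hpos i (mem_of_mem_erase hi)).le
      · intro i hi
        rw [haa i (mem_of_mem_erase hi)]
        linarith
    have h2 : 0 ≤ m * (m + c) := by positivity
    calc (m + c) * (m * ∏ i ∈ s.erase i0, a i) = m * (m + c) * ∏ i ∈ s.erase i0, a i := by ring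
      _ ≤ m * (m + c) * ∏ i ∈ s.erase i0, a' i := mul_le_mul_of_nonneg_left h1 h2
      _ = m * ((a i0 + c) * ∏ i ∈ s.erase i0, a' i) := by rw [← hm]; ring
  -- sums
  set t := α * σ * ∑ i ∈ s, w i / a i with ht
  set t' := α * σ * ∑ i ∈ s, w i / a' i with ht'
  have hmc : 0 < m + c := by linarith
  have ht'1 : |t'| ≤ u / (m + c) := by
    rw [ht', abs_mul, abs_mul, hα1, hσ1, one_mul, one_mul]
    apply sum_small hw _ hmc
    intro i hi
    rw [haa i hi]
    have := hmin i hi
    linarith
  have htt : |t' - t| ≤ u * c / (m * (m + c)) := by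
    have h1 : t' - t = α * σ * ∑ i ∈ s, w i * (1 / a' i - 1 / a i) := by
      rw [ht, ht', ← mul_sub, ← sum_sub_distrib]
      congr 1
      apply sum_congr rfl
      intro i _
      ring
    rw [h1, abs_mul, abs_mul, hα1, hσ1, one_mul, one_mul]
    refine (abs_sum_le_sum_abs _ _).trans ?_
    calc ∑ i ∈ s, |w i * (1 / a' i - 1 / a i)| ≤ ∑ i ∈ s, |w i| * (c / (m * (m + c))) := by
          apply sum_le_sum
          intro i hi
          rw [abs_mul]
          apply mul_le_mul_of_nonneg_left _ (abs_nonneg _)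
          have h2 := hpos i hi
          have h3 := hpos' i hi
          have h4 : (1 / a' i - 1 / a i) = - (c / (a i * a' i)) := by
            have h5 : a i ≠ 0 := h2.ne'
            have h6 : a' i ≠ 0 := h3.ne'
            have h7 := haa i hi
            field_simp
            rw [h7]; ring
          rw [h4, abs_neg, abs_of_nonneg (by positivity)]
          have h8 := hmin i hi
          apply div_le_div_of_nonneg_left hzz.le (by positivity)
          rw [haa i hi]
          exact mul_le_mul h8 (by linarith) hmc.le h2.le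
      _ = (∑ i ∈ s, |w i|) * (c / (m * (m + c))) := by rw [sum_mul]
      _ ≤ u * (c / (m * (m + c))) := mul_le_mul_of_nonneg_right hw (by positivity)
      _ = _ := by ring
  -- conclusion
  have h1 : -(u / (m + c)) ≤ t' := (abs_le.1 ht'1).1
  have h2 : -(u * c / (m * (m + c))) ≤ t' - t := (abs_le.1 htt).1
  have h3 : u / (m + c) < 1 := by
    rw [div_lt_one hmc]
    linarith
  have h4 : 0 < |A| + t' := by linarith
  have h5 : (m + c) * p * (|A| + t') ≤ m * p' * (|A| + t') := mul_le_mul_of_nonneg_right hpp h4.le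
  have h6 : m * (|A| + t) < (m + c) * (|A| + t') := by
    have h7 : (m + c) * (|A| + t') - m * (|A| + t) = c * (|A| + t') + m * (t' - t) := by ring
    have h8 : -(u * c / (m + c)) ≤ m * (t' - t) := by
      have : m * (u * c / (m * (m + c))) = u * c / (m + c) := by
        field_simp
      nlinarith
    have h9 : c * (1 - u / (m + c)) ≤ c * (|A| + t') :=
      mul_le_mul_of_nonneg_left (by linarith) hzz.le
    have h10 : c * (1 - u / (m + c)) - u * c / (m + c) = c * (1 - 2 * u / (m + c)) := by ring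
    have h11 : 2 * u / (m + c) < 1 := by
      rw [div_lt_one hmc]
      linarith
    have h12 : 0 < c * (1 - 2 * u / (m + c)) := mul_pos hzz (by linarith)
    linarith
  have h7 : m * (p * (|A| + t)) < m * (p' * (|A| + t')) := by
    calc m * (p * (|A| + t)) = p * (m * (|A| + t)) := by ring
      _ < p * ((m + c) * (|A| + t')) := mul_lt_mul_of_pos_left h6 hp0
      _ = (m + c) * p * (|A| + t') := by ring
      _ ≤ m * p' * (|A| + t') := h5
      _ = _ := by ring
  exact lt_of_mul_lt_mul_left h7 hm0.le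

theorem expand_F {g : ℝ[X]} {d : ℕ} (hdeg : g.natDegree = d + 1) {v : ℕ → ℝ}
    (hinj : Set.InjOn v (range (d + 1) : Finset ℕ)) (y z : ℝ) :
    g.eval z - y = F g.leadingCoeff v
      (fun i => (g.eval (v i) - y) / ∏ j ∈ (range (d + 1)).erase i, (v i - v j)) d z := by
  set G : ℝ[X] := g - C y with hG
  have hGdeg : G.natDegree = d + 1 := by rw [hG, natDegree_sub_C, hdeg]
  have hGlc : G.leadingCoeff = g.leadingCoeff := by
    rw [leadingCoeff, leadingCoeff, hGdeg, hdeg, hG, coeff_sub, coeff_C, if_neg (by omega), sub_zero]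
  have h1 := expand hGdeg hinj z
  rw [hGlc] at h1
  have h2 : ∀ t, G.eval t = g.eval t - y := by
    intro t
    rw [hG, eval_sub, eval_C]
  simp only [h2] at h1
  rw [h1]
  rfl

theorem ineq {A Q R q u κ : ℝ} (hA : 1 ≤ A) (hq : 3 ≤ q) (hR : 4 ≤ R) (hQ : R ≤ Q)
    (hu : 2 * u + 4 ≤ κ) (hκ : κ ≤ R) :
    4 * (A * (Q * R) + u * Q + κ) ≤ 3 * q * (Q * R) * A - u * (q * Q) := by
  have hQ0 : 0 ≤ Q := by linarith
  have hu2 : 0 ≤ (R / 2 - u) * Q := mul_nonneg (by linarith) hQ0
  have hk4 : 0 ≤ R * (Q / 4 - 1) := mul_nonneg (by linarith) (by linarith)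
  have h1 : 0 ≤ q * ((R / 2 - u) * Q) := mul_nonneg (by linarith) hu2
  have hQR : 0 ≤ Q * R := mul_nonneg hQ0 (by linarith)
  have h4 : 0 ≤ (A - 1) * (3 * q - 4) := mul_nonneg (by linarith) (by linarith)
  have h5 : 0 ≤ 3 * q * A - q / 2 - 4 * A - 3 := by linarith
  have h6 : 0 ≤ (3 * q * A - q / 2 - 4 * A - 3) * (Q * R) := mul_nonneg h5 hQR
  linarith

theorem core {g : ℝ[X]} {d : ℕ} (hd : 1 ≤ d) (hdeg : g.natDegree = d + 1)
    (hlc : 1 ≤ |g.leadingCoeff|) {v : ℕ → ℝ} {S : ℝ} (hS : 0 < S)
    (hgap : ∀ i < d + 1, v i + S ≤ v (i + 1)) {n : ℕ} {c : ℝ} {Y : Finset ℝ}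
    (hvY : ∀ i ≤ d + 1, g.eval (v i) ∈ Y) (hY : ∀ y ∈ Y, (fun z => g.eval z)^[n] y = c)
    (h3 : 3 ≤ Y.card) (hM : 24 ≤ S ^ d * d.factorial / 2 ^ d)
    (hfin : 32 ≤ (S ^ d * d.factorial / 2 ^ d - 24) * (S * (d + 1)) + 8 * S) : False := by
  classical
  have hYne : Y.Nonempty := card_pos.1 (by omega)
  set a := Y.min' hYne with ha
  set b := Y.max' hYne with hb
  have hab : ∀ y ∈ Y, a ≤ y ∧ y ≤ b := fun y hy => ⟨Y.min'_le y hy, Y.le_max' y hy⟩
  set M := S ^ d * d.factorial / 2 ^ d with hMdef
  have hM0 : 0 < M := by linarith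
  set u := (b - a) / M with hu
  have hDu : b - a = M * u := by rw [hu]; field_simp
  have hgap0 : ∀ i < d, v i + S ≤ v (i + 1) := fun i hi => hgap i (by omega)
  have hinj := injOn_of_gap hS hgap0
  have hspread : v (d + 1) - v 0 ≤ u :=
    spread hd hdeg hlc hS hgap (fun i hi => hab _ (hvY i hi))
  -- monotonicity of the nodes
  have hvmono : ∀ i j, i ≤ j → j ≤ d + 1 → v i ≤ v j := by
    intro i j hij
    induction j, hij using Nat.le_induction with
    | base => intro _; exact le_rfl
    | succ j hij ih =>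
      intro hj
      have h1 := ih (by omega)
      have h2 := hgap j (by omega)
      linarith
  set h := v d - v 0 with hh
  have hh0 : 0 ≤ h := by
    have := hvmono 0 d (by omega) (by omega)
    linarith
  have hhS : h + S ≤ u := by
    have := hgap d (by omega)
    linarith
  have hSu : S * (d + 1) ≤ u := by
    have h1 := gap_abs hS.le hgap 0 (by omega) (d + 1) le_rfl
    have h2 := hvmono 0 (d + 1) (by omega) le_rfl
    rw [abs_sub_comm (v 0), abs_of_nonneg (by linarith : 0 ≤ v (d + 1) - v 0)] at h1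
    have h4 : |((0 : ℕ) : ℝ) - ((d + 1 : ℕ) : ℝ)| = (d : ℝ) + 1 := by
      rw [abs_sub_comm, abs_of_nonneg]
      · push_cast; ring
      · push_cast
        linarith [(Nat.cast_nonneg d : (0 : ℝ) ≤ d)]
    rw [h4] at h1
    linarith
  have hu0 : 0 < u := by linarith
  -- weights
  have hwts : ∀ y, a ≤ y → y ≤ b → ∑ i ∈ range (d + 1),
      |(g.eval (v i) - y) / ∏ j ∈ (range (d + 1)).erase i, (v i - v j)| ≤ u := by
    intro y hay hyb
    apply weights hS hgap0 (r := fun i => g.eval (v i) - y) (B := b - a)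
    intro i hi
    obtain ⟨h1, h2⟩ := hab _ (hvY i (by omega))
    rw [abs_le]
    constructor <;> linarith
  set A := g.leadingCoeff with hA
  set G : ℝ → ℝ := fun z => g.eval z with hG
  set ρ := 2 * u + 4 with hρ
  have hvi : ∀ i ∈ range (d + 1), v 0 ≤ v i ∧ v i ≤ v d := by
    intro i hi
    rw [mem_range] at hi
    exact ⟨hvmono 0 i (by omega) (by omega), hvmono i d (by omega) (by omega)⟩
  by_cases hcore : ∃ y0 ∈ Y, v 0 - ρ < y0 ∧ y0 < v d + ρ
  · -- a point of `Y` near the nodes
    obtain ⟨y0, hy0, hlo, hhi⟩ := hcore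
    set κ := h + ρ with hκ
    have hκ0 : 0 < κ := by linarith
    have hyv : ∀ i ∈ range (d + 1), |y0 - v i| ≤ κ := by
      intro i hi
      obtain ⟨h1, h2⟩ := hvi i hi
      rw [abs_le]
      constructor <;> linarith
    have hw := hwts y0 (hab y0 hy0).1 (hab y0 hy0).2
    have key : ∀ z z', 4 * (|z - y0| + κ) ≤ |z' - y0| → 4 * (|G z - y0| + κ) ≤ |G z' - y0| := by
      intro z z' hzz
      set R := |z - y0| + κ with hR
      have hR0 : κ ≤ R := by
        have := abs_nonneg (z - y0)
        linarith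
      have hR4 : 4 ≤ R := by linarith
      have hup : |G z - y0| ≤ |A| * R ^ (d + 1) + u * R ^ d := by
        simp only [hG]
        rw [expand_F hdeg hinj y0 z]
        apply F_upper hw _ (by linarith)
        intro i hi
        calc |z - v i| = |(z - y0) + (y0 - v i)| := by congr 1; ring
          _ ≤ |z - y0| + |y0 - v i| := abs_add_le _ _
          _ ≤ R := by
            have := hyv i hi
            linarith
      have hlow : |A| * (3 * R) ^ (d + 1) - u * (3 * R) ^ d ≤ |G z' - y0| := by
        simp only [hG]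
        rw [expand_F hdeg hinj y0 z']
        apply F_lower hw _ (by linarith)
        · have h1 : 1 * (3 * R) ≤ |A| * (3 * R) := mul_le_mul_of_nonneg_right hlc (by linarith)
          linarith
        · intro i hi
          have h1 : |z' - y0| ≤ |z' - v i| + |y0 - v i| := by
            calc |z' - y0| = |(z' - v i) - (y0 - v i)| := by congr 1; ring
              _ ≤ |z' - v i| + |y0 - v i| := abs_sub _ _
          have h2 := hyv i hi
          linarith
      refine le_trans ?_ hlow
      have hRd : R ≤ R ^ d := by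
        calc R = R ^ 1 := (pow_one R).symm
          _ ≤ R ^ d := pow_le_pow_right₀ (by linarith) hd
      have hRd0 : 0 < R ^ d := by positivity
      have hq3 : 3 ≤ (3 : ℝ) ^ d := by
        calc (3 : ℝ) = 3 ^ 1 := by norm_num
          _ ≤ 3 ^ d := pow_le_pow_right₀ (by norm_num) hd
      have e1 : (3 * R) ^ (d + 1) = 3 * 3 ^ d * (R ^ d * R) := by rw [mul_pow]; ring
      have e2 : (3 * R) ^ d = 3 ^ d * R ^ d := mul_pow _ _ _
      rw [pow_succ R d] at hup
      rw [e1, e2]
      have h1 := ineq (u := u) (κ := κ) hlc hq3 hR4 hRd (by linarith) hR0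
      linarith
    have hiter : ∀ k z z', 4 * (|z - y0| + κ) ≤ |z' - y0| →
        4 * (|G^[k] z - y0| + κ) ≤ |G^[k] z' - y0| := by
      intro k
      induction k with
      | zero => intro z z' hzz; exact hzz
      | succ k ih =>
        intro z z' hzz
        rw [Function.iterate_succ_apply, Function.iterate_succ_apply]
        exact ih _ _ (key z z' hzz)
    have hnear : ∀ y ∈ Y, |y - y0| < 4 * κ := by
      intro y hy
      by_contra hcon
      push Not at hcon
      have h1 := hiter n y0 y (by rw [sub_self, abs_zero, zero_add]; exact hcon)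
      rw [hY y0 hy0, hY y hy] at h1
      have := abs_nonneg (c - y0)
      linarith
    have h1 := hnear a (Y.min'_mem hYne)
    have h2 := hnear b (Y.max'_mem hYne)
    rw [abs_lt] at h1 h2
    have h4 : M * u < 8 * κ := by linarith
    have h5 : (M - 24) * (S * (d + 1)) ≤ (M - 24) * u := mul_le_mul_of_nonneg_left hSu (by linarith)
    have h6 : M * u < 8 * (3 * u - S + 4) := by linarith
    nlinarith
  · -- all points of `Y` are far from the nodes
    push Not at hcore
    obtain ⟨ys, hys, hmin⟩ := exists_min_image Y (fun y => max (v 0 - y) (y - v d)) hYne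
    set T := max (v 0 - ys) (ys - v d) with hT
    have hTρ : ρ ≤ T := by
      rcases le_or_gt ys (v 0 - ρ) with h1 | h1
      · exact le_trans (by linarith) (le_max_left _ _)
      · exact le_trans (by linarith [hcore ys hys h1]) (le_max_right _ _)
    have hys1 : v 0 - T ≤ ys := by
      have := le_max_left (v 0 - ys) (ys - v d)
      linarith
    have hys2 : ys ≤ v d + T := by
      have := le_max_right (v 0 - ys) (ys - v d)
      linarith
    have hysv : ∀ i ∈ range (d + 1), |ys - v i| ≤ T + h := by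
      intro i hi
      obtain ⟨h1, h2⟩ := hvi i hi
      rw [abs_le]
      constructor <;> linarith
    have hw := hwts ys (hab ys hys).1 (hab ys hys).2
    have hT0 : 0 < T := by linarith
    obtain ⟨α, hα1, hα⟩ : ∃ α : ℝ, |α| = 1 ∧ α * A = |A| := by
      rcases le_total 0 A with h1 | h1
      · exact ⟨1, abs_one, by rw [one_mul, abs_of_nonneg h1]⟩
      · exact ⟨-1, by simp, by rw [abs_of_nonpos h1]; ring⟩
    have hα2 : α ^ 2 = 1 := by rw [← sq_abs, hα1]; norm_num
    set Reg : ℝ → ℝ → Prop := fun σ z => ∀ i ∈ range (d + 1), T ≤ σ * (z - v i) with hReg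
    have hτ : ∀ σ : ℝ, σ ^ 2 = 1 → (α * σ ^ (d + 1)) ^ 2 = 1 := by
      intro σ hσ
      rw [mul_pow, hα2, ← pow_mul, mul_comm (d + 1) 2, pow_mul, hσ, one_pow, mul_one]
    have habs1 : ∀ σ : ℝ, σ ^ 2 = 1 → |σ| = 1 := by
      intro σ hσ
      have : |σ| ^ 2 = 1 := by rw [sq_abs, hσ]
      nlinarith [abs_nonneg σ]
    have hTpow : 2 * T + h ≤ T ^ (d + 1) / 2 := by
      have h1 : T ^ 2 ≤ T ^ (d + 1) := pow_le_pow_right₀ (by linarith) (by omega)
      have h2 : T * (2 * u + 4) ≤ T * T := mul_le_mul_of_nonneg_left hTρ hT0.le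
      nlinarith
    have hinv : ∀ σ z, σ ^ 2 = 1 → Reg σ z → Reg (α * σ ^ (d + 1)) (G z) := by
      intro σ z hσ hz i hi
      have h1 := far_lower hσ hα hα1 hlc hw hz hT0 (by linarith)
      rw [← expand_F hdeg hinj ys z] at h1
      have h2 := hysv i hi
      have h4 : |α * σ ^ (d + 1) * (ys - v i)| = |ys - v i| := by
        rw [abs_mul, habs1 _ (hτ σ hσ), one_mul]
      have h5 := neg_abs_le (α * σ ^ (d + 1) * (ys - v i))
      have h6 : α * σ ^ (d + 1) * (G z - v i) =
          α * σ ^ (d + 1) * (g.eval z - ys) + α * σ ^ (d + 1) * (ys - v i) := by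
        simp only [hG]; ring
      rw [h6]
      linarith
    have hinj2 : ∀ σ z z', σ ^ 2 = 1 → Reg σ z → Reg σ z' → z ≠ z' → G z ≠ G z' := by
      intro σ z z' hσ hz hz' hne heq
      have hσ0 : σ ≠ 0 := by
        rintro rfl
        norm_num at hσ
      have hprod : σ * (z' - z) ≠ 0 := mul_ne_zero hσ0 (sub_ne_zero.2 hne.symm)
      rcases lt_or_gt_of_ne hprod with h1 | h1
      · have h2 : 0 < σ * (z - z') := by
          have : σ * (z - z') = - (σ * (z' - z)) := by ring
          linarith
        have h4 := far_mono hσ hα hα1 hlc hw hz' hT0 (by linarith) h2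
        rw [← expand_F hdeg hinj ys z, ← expand_F hdeg hinj ys z'] at h4
        simp only [hG] at heq
        rw [heq] at h4
        exact lt_irrefl _ h4
      · have h4 := far_mono hσ hα hα1 hlc hw hz hT0 (by linarith) h1
        rw [← expand_F hdeg hinj ys z, ← expand_F hdeg hinj ys z'] at h4
        simp only [hG] at heq
        rw [heq] at h4
        exact lt_irrefl _ h4
    have hiter : ∀ k σ z z', σ ^ 2 = 1 → Reg σ z → Reg σ z' → z ≠ z' → G^[k] z ≠ G^[k] z' := by
      intro k
      induction k with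
      | zero => intro σ z z' _ _ _ hne; exact hne
      | succ k ih =>
        intro σ z z' hσ hz hz' hne
        rw [Function.iterate_succ_apply, Function.iterate_succ_apply]
        exact ih _ _ _ (hτ σ hσ) (hinv σ z hσ hz) (hinv σ z' hσ hz') (hinj2 σ z z' hσ hz hz' hne)
    have hone : ∀ σ : ℝ, σ ^ 2 = 1 → (Y.filter (Reg σ)).card ≤ 1 := by
      intro σ hσ
      rw [card_le_one]
      intro z hz z' hz'
      rw [mem_filter] at hz hz'
      by_contra hne
      apply hiter n σ z z' hσ hz.2 hz'.2 hne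
      rw [hY z hz.1, hY z' hz'.1]
    have hcover : Y ⊆ Y.filter (Reg 1) ∪ Y.filter (Reg (-1)) := by
      intro y hy
      rw [mem_union, mem_filter, mem_filter]
      have h1 := hmin y hy
      rcases le_total (v 0 - y) (y - v d) with h2 | h2
      · left
        refine ⟨hy, ?_⟩
        intro i hi
        rw [max_eq_right h2] at h1
        have := (hvi i hi).2
        linarith
      · right
        refine ⟨hy, ?_⟩
        intro i hi
        rw [max_eq_left h2] at h1
        have := (hvi i hi).1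
        linarith
    have h1 := card_le_card hcover
    have h2 := card_union_le (Y.filter (Reg 1)) (Y.filter (Reg (-1)))
    have h4 := hone 1 (by norm_num)
    have h5 := hone (-1) (by norm_num)
    omega

theorem factorial_growth {d : ℕ} (hd : 7 ≤ d) : 39 * 2 ^ d ≤ d.factorial := by
  induction d, hd using Nat.le_induction with
  | base => decide
  | succ d hd ih =>
    rw [Nat.factorial_succ]
    have : 39 * 2 ^ (d + 1) = 2 * (39 * 2 ^ d) := by ring
    rw [this]
    exact Nat.mul_le_mul (by omega) ih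

/-- the numerical choice of the gap parameter. -/
theorem numeric {e c : ℕ} (he : 2 ≤ e) (hc : max (2 * e) 96 < c) :
    ∃ S : ℕ, 0 < S ∧ S * e + 1 ≤ c ∧
      (24 : ℝ) ≤ (S : ℝ) ^ (e - 1) * (e - 1).factorial / 2 ^ (e - 1) ∧
      (32 : ℝ) ≤ ((S : ℝ) ^ (e - 1) * (e - 1).factorial / 2 ^ (e - 1) - 24) *
        ((S : ℝ) * (((e - 1 : ℕ) : ℝ) + 1)) + 8 * S := by
  have hc1 : 2 * e < c := lt_of_le_of_lt (le_max_left _ _) hc
  have hc2 : 96 < c := lt_of_le_of_lt (le_max_right _ _) hc
  rcases Nat.lt_or_ge e 8 with h | h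
  · interval_cases e
    · exact ⟨48, by norm_num, by omega, by norm_num [Nat.factorial], by norm_num [Nat.factorial]⟩
    · exact ⟨32, by norm_num, by omega, by norm_num [Nat.factorial], by norm_num [Nat.factorial]⟩
    · exact ⟨24, by norm_num, by omega, by norm_num [Nat.factorial], by norm_num [Nat.factorial]⟩
    · exact ⟨19, by norm_num, by omega, by norm_num [Nat.factorial], by norm_num [Nat.factorial]⟩
    · exact ⟨16, by norm_num, by omega, by norm_num [Nat.factorial], by norm_num [Nat.factorial]⟩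
    · exact ⟨13, by norm_num, by omega, by norm_num [Nat.factorial], by norm_num [Nat.factorial]⟩
  · have h39 : (39 : ℝ) ≤ ((1 : ℕ) : ℝ) ^ (e - 1) * (e - 1).factorial / 2 ^ (e - 1) := by
      rw [Nat.cast_one, one_pow, one_mul, le_div_iff₀ (by positivity)]
      exact_mod_cast factorial_growth (d := e - 1) (by omega)
    refine ⟨1, by norm_num, by omega, by linarith, ?_⟩
    set M := ((1 : ℕ) : ℝ) ^ (e - 1) * (e - 1).factorial / 2 ^ (e - 1) with hM
    have h7 : (7 : ℝ) ≤ ((e - 1 : ℕ) : ℝ) := by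
      exact_mod_cast (by omega : 7 ≤ e - 1)
    push_cast at h7 ⊢
    nlinarith

/-- **Main theorem.** -/
theorem main (g : ℝ[X]) (he : 2 ≤ g.natDegree) (hlc : 1 ≤ |g.leadingCoeff|) (n : ℕ) (c : ℝ)
    (A : Finset ℝ) (hsep : ∀ x ∈ A, ∀ y ∈ A, x ≠ y → 1 ≤ |x - y|)
    (hA : ∀ x ∈ A, (fun z => g.eval z)^[n] x = c) : A.card ≤ max (2 * g.natDegree) 96 := by
  classical
  by_contra hcon
  push Not at hcon
  obtain ⟨S, hS0, hSc, hM, hfin⟩ := numeric he hcon
  have hc1 : 2 * g.natDegree < A.card := lt_of_le_of_lt (le_max_left _ _) hcon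
  obtain ⟨d, hd⟩ : ∃ d, g.natDegree = d + 1 := ⟨g.natDegree - 1, by omega⟩
  have hd1 : 1 ≤ d := by omega
  rw [hd, Nat.add_sub_cancel] at hM hfin
  rcases n with _ | n
  · have : A ⊆ {c} := by
      intro x hx
      rw [mem_singleton]
      exact hA x hx
    have := card_le_card this
    rw [card_singleton] at this
    omega
  · set G : ℝ → ℝ := fun z => g.eval z with hG
    have hA' : ∀ x ∈ A, G^[n] (G x) = c := by
      intro x hx
      have := hA x hx
      rwa [Function.iterate_succ_apply] at this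
    obtain ⟨v, hvA, hgap⟩ := exists_nodes_real A hsep S (d + 1) (by rw [← hd]; exact hSc)
    set Y := A.image G with hY
    have hcard : A.card ≤ g.natDegree * Y.card := by
      apply card_le_mul_card_image
      intro y _
      have hne : g - C y ≠ 0 := by
        intro h
        have h1 : (g - C y).natDegree = g.natDegree := natDegree_sub_C
        rw [h, natDegree_zero] at h1
        omega
      have hsub : A.filter (fun x => G x = y) ⊆ (g - C y).roots.toFinset := by
        intro x hx
        rw [mem_filter] at hx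
        rw [Multiset.mem_toFinset, mem_roots hne, IsRoot.def, eval_sub, eval_C, sub_eq_zero]
        exact hx.2
      calc (A.filter (fun x => G x = y)).card ≤ (g - C y).roots.toFinset.card := card_le_card hsub
        _ ≤ Multiset.card (g - C y).roots := Multiset.toFinset_card_le _
        _ ≤ (g - C y).natDegree := card_roots' _
        _ = g.natDegree := natDegree_sub_C
    have h3 : 3 ≤ Y.card := by
      by_contra h
      push Not at h
      have : g.natDegree * Y.card ≤ g.natDegree * 2 := Nat.mul_le_mul_left _ (by omega)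
      omega
    have hSr : (0 : ℝ) < (S : ℝ) := by exact_mod_cast hS0
    exact core hd1 hd hlc hSr (fun i hi => hgap i hi) (Y := Y) (n := n) (c := c)
      (fun i hi => mem_image_of_mem _ (hvA i hi))
      (by
        intro y hy
        rw [hY, mem_image] at hy
        obtain ⟨x, hx, rfl⟩ := hy
        exact hA' x hx) h3 hM hfin

/-- the same over the integers. -/
theorem main_int (g : ℤ[X]) (he : 2 ≤ g.natDegree) (n : ℕ) (c : ℤ) (A : Finset ℤ)
    (hA : ∀ x ∈ A, (fun z => g.eval z)^[n] x = c) : A.card ≤ max (2 * g.natDegree) 96 := by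
  classical
  have hinj : Function.Injective (Int.castRingHom ℝ) := Int.cast_injective
  set P : ℝ[X] := g.map (Int.castRingHom ℝ) with hP
  have hdeg : P.natDegree = g.natDegree := natDegree_map_eq_of_injective hinj g
  have hg0 : g ≠ 0 := by
    rintro rfl
    simp at he
  have hlc : (1 : ℝ) ≤ |P.leadingCoeff| := by
    rw [hP, leadingCoeff_map_of_injective hinj]
    have h1 : g.leadingCoeff ≠ 0 := leadingCoeff_ne_zero.2 hg0
    have h2 : 1 ≤ |g.leadingCoeff| := Int.one_le_abs h1
    have h3 : ((|g.leadingCoeff| : ℤ) : ℝ) = |((g.leadingCoeff : ℤ) : ℝ)| := by push_cast; rfl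
    have h4 : (1 : ℝ) ≤ ((|g.leadingCoeff| : ℤ) : ℝ) := by exact_mod_cast h2
    rw [h3] at h4
    simpa using h4
  have hev : ∀ z : ℤ, P.eval (z : ℝ) = ((g.eval z : ℤ) : ℝ) := by
    intro z
    rw [hP]
    simp
  have hit : ∀ k, ∀ z : ℤ, (fun z => P.eval z)^[k] (z : ℝ) = (((fun z => g.eval z)^[k] z : ℤ) : ℝ) := by
    intro k
    induction k with
    | zero => intro z; rfl
    | succ k ih =>
      intro z
      rw [Function.iterate_succ_apply, Function.iterate_succ_apply]
      simp only [hev]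
      exact ih _
  have h := main P (by rw [hdeg]; exact he) hlc n (c : ℝ) (A.map ⟨fun z : ℤ => (z : ℝ), Int.cast_injective⟩)
    (by
      intro x hx y hy hne
      rw [mem_map] at hx hy
      obtain ⟨x, hx, rfl⟩ := hx
      obtain ⟨y, hy, rfl⟩ := hy
      have hne' : x - y ≠ 0 := by
        intro h
        apply hne
        have : x = y := by omega
        rw [this]
      have h1 : 1 ≤ |x - y| := Int.one_le_abs hne'
      have h2 : (1 : ℝ) ≤ ((|x - y| : ℤ) : ℝ) := by exact_mod_cast h1
      push_cast at h2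
      exact h2)
    (by
      intro x hx
      rw [mem_map] at hx
      obtain ⟨x, hx, rfl⟩ := hx
      have := hit n x
      change (fun z => P.eval z)^[n] (x : ℝ) = (c : ℝ)
      rw [this, hA x hx])
  rw [card_map, hdeg] at h
  exact h

/-- compositions of `k` runs. -/
theorem runs (k e : ℕ) (g F : ℕ → ℤ[X]) (m : ℕ → ℕ) (hF0 : F 0 = X)
    (hF : ∀ j < k, F (j + 1) = (fun p => (g j).comp p)^[m j] (F j))
    (hdeg : ∀ j < k, 2 ≤ (g j).natDegree ∧ (g j).natDegree ≤ e) (c : ℤ) (A : Finset ℤ)
    (hA : ∀ x ∈ A, (F k).eval x = c) : A.card ≤ (max (2 * e) 96) ^ k := by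
  classical
  have hstep : ∀ j, j ≤ k → ∀ (c : ℤ) (A : Finset ℤ), (∀ x ∈ A, (F j).eval x = c) →
      A.card ≤ (max (2 * e) 96) ^ j := by
    intro j
    induction j with
    | zero =>
      intro _ c A hA
      have : A ⊆ {c} := by
        intro x hx
        rw [mem_singleton]
        have := hA x hx
        rwa [hF0, eval_X] at this
      simpa using card_le_card this
    | succ j ih =>
      intro hj c A hA
      have hev : ∀ (i : ℕ) (p : ℤ[X]) (x : ℤ), ((fun p => (g j).comp p)^[i] p).eval x =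
          (fun z => (g j).eval z)^[i] (p.eval x) := by
        intro i
        induction i with
        | zero => intro p x; rfl
        | succ i ih2 =>
          intro p x
          rw [Function.iterate_succ_apply, Function.iterate_succ_apply, ih2, eval_comp]
      set Y := A.image (fun x => (F j).eval x) with hY
      have hYc : Y.card ≤ max (2 * (g j).natDegree) 96 := by
        apply main_int (g j) (hdeg j (by omega)).1 (m j) c Y
        intro y hy
        rw [hY, mem_image] at hy
        obtain ⟨x, hx, rfl⟩ := hy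
        rw [← hev, ← hF j (by omega)]
        exact hA x hx
      have h1 : A.card ≤ (max (2 * e) 96) ^ j * Y.card := by
        apply card_le_mul_card_image
        intro y _
        apply ih (by omega) y
        intro x hx
        rw [mem_filter] at hx
        exact hx.2
      have h2 : Y.card ≤ max (2 * e) 96 := by
        have := (hdeg j (by omega)).2
        have h3 : max (2 * (g j).natDegree) 96 ≤ max (2 * e) 96 := max_le_max (by omega) le_rfl
        omega
      rw [pow_succ]
      exact h1.trans (Nat.mul_le_mul_left _ h2)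
  exact hstep k le_rfl c A hA

/-- compositions of `k` runs, real form. -/
theorem runs_real (k e : ℕ) (g F : ℕ → ℝ[X]) (m : ℕ → ℕ) (hF0 : F 0 = X)
    (hF : ∀ j < k, F (j + 1) = (fun p => (g j).comp p)^[m j] (F j))
    (hdeg : ∀ j < k, 2 ≤ (g j).natDegree ∧ (g j).natDegree ≤ e ∧ 1 ≤ |(g j).leadingCoeff|)
    (c : ℝ) (A : Finset ℝ)
    (hsep : ∀ j < k, ∀ x ∈ A, ∀ y ∈ A, (F j).eval x ≠ (F j).eval y →
      1 ≤ |(F j).eval x - (F j).eval y|)
    (hA : ∀ x ∈ A, (F k).eval x = c) : A.card ≤ (max (2 * e) 96) ^ k := by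
  classical
  have hstep : ∀ j, j ≤ k → ∀ (c : ℝ) (B : Finset ℝ), B ⊆ A → (∀ x ∈ B, (F j).eval x = c) →
      B.card ≤ (max (2 * e) 96) ^ j := by
    intro j
    induction j with
    | zero =>
      intro _ c B _ hB
      have : B ⊆ {c} := by
        intro x hx
        rw [mem_singleton]
        have := hB x hx
        rwa [hF0, eval_X] at this
      simpa using card_le_card this
    | succ j ih =>
      intro hj c B hBA hB
      have hev : ∀ (i : ℕ) (p : ℝ[X]) (x : ℝ), ((fun p => (g j).comp p)^[i] p).eval x =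
          (fun z => (g j).eval z)^[i] (p.eval x) := by
        intro i
        induction i with
        | zero => intro p x; rfl
        | succ i ih2 =>
          intro p x
          rw [Function.iterate_succ_apply, Function.iterate_succ_apply, ih2, eval_comp]
      obtain ⟨hd1, hd2, hd3⟩ := hdeg j (by omega)
      set Y := B.image (fun x => (F j).eval x) with hY
      have hYc : Y.card ≤ max (2 * (g j).natDegree) 96 := by
        apply main (g j) hd1 hd3 (m j) c Y
        · intro y hy y' hy' hne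
          rw [hY, mem_image] at hy hy'
          obtain ⟨x, hx, rfl⟩ := hy
          obtain ⟨x', hx', rfl⟩ := hy'
          exact hsep j (by omega) x (hBA hx) x' (hBA hx') hne
        · intro y hy
          rw [hY, mem_image] at hy
          obtain ⟨x, hx, rfl⟩ := hy
          rw [← hev, ← hF j (by omega)]
          exact hB x hx
      have h1 : B.card ≤ (max (2 * e) 96) ^ j * Y.card := by
        apply card_le_mul_card_image
        intro y _
        apply ih (by omega) y _ ((filter_subset _ _).trans hBA)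
        intro x hx
        rw [mem_filter] at hx
        exact hx.2
      have h2 : Y.card ≤ max (2 * e) 96 := by
        have h3 : max (2 * (g j).natDegree) 96 ≤ max (2 * e) 96 := max_le_max (by omega) le_rfl
        omega
      rw [pow_succ]
      exact h1.trans (Nat.mul_le_mul_left _ h2)
  exact hstep k le_rfl c A (Subset.refl _) hA

end Pool.Agent.H638R2.Iter
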