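import Pool.Agent.H671R2.PolyAuto

/-!
# Existential sentences over the rational numbers

* `Tm` : terms of the language of rings (variables, `0`, `1`, `+`, `-`, `·`);
* `Fm` : quantifier-free formulas, built from equations `s = t` with `¬`, `∧`, `∨`;
* `TrueQ φ` : the existential closure of `φ` is true in the field of rational numbers.

Formulas are written as strings in reverse Polish notation, with the indices of the variables
written in binary.
-/

namespace Pool.Agent.NPC.ExQ

/-- Terms of the language of rings, in the variables `x₀, x₁, …`. -/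
inductive Tm : Type
  | var (i : ℕ) : Tm
  | zero : Tm
  | one : Tm
  | add (s t : Tm) : Tm
  | neg (t : Tm) : Tm
  | mul (s t : Tm) : Tm
  deriving DecidableEq, Inhabited

/-- The value of a term at a rational point. -/
def Tm.eval (x : ℕ → ℚ) : Tm → ℚ
  | var i => x i
  | zero => 0
  | one => 1
  | add s t => s.eval x + t.eval x
  | neg t => - t.eval x
  | mul s t => s.eval x * t.eval x

/-- Quantifier-free formulas: Boolean combinations of equations `s = t` between terms. -/
inductive Fm : Type
  | eq (s t : Tm) : Fm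
  | not (φ : Fm) : Fm
  | and (φ ψ : Fm) : Fm
  | or (φ ψ : Fm) : Fm
  deriving DecidableEq, Inhabited

/-- Truth of a quantifier-free formula at a rational point. -/
def Fm.Holds (x : ℕ → ℚ) : Fm → Prop
  | eq s t => s.eval x = t.eval x
  | not φ => ¬ φ.Holds x
  | and φ ψ => φ.Holds x ∧ ψ.Holds x
  | or φ ψ => φ.Holds x ∨ ψ.Holds x

/-- The existential theory of the rational numbers: the existential closure of the quantifier-free
formula `φ` is true over the rational numbers. -/
def TrueQ (φ : Fm) : Prop := ∃ x : ℕ → ℚ, φ.Holds x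

/-- The symbols of reverse Polish notation. -/
inductive Tok : Type
  | var (i : ℕ) : Tok
  | zero : Tok
  | one : Tok
  | add : Tok
  | neg : Tok
  | mul : Tok
  | eq : Tok
  | not : Tok
  | and : Tok
  | or : Tok
  deriving DecidableEq, Inhabited

/-- The numerical code of a symbol; the second component is the index of a variable. -/
def Tok.code : Tok → ℕ × ℕ
  | var i => (0, i)
  | zero => (1, 0)
  | one => (2, 0)
  | add => (3, 0)
  | neg => (4, 0)
  | mul => (5, 0)
  | eq => (6, 0)
  | not => (7, 0)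
  | and => (8, 0)
  | or => (9, 0)

theorem Tok.code_injective : Function.Injective Tok.code := by
  intro a b h
  cases a <;> cases b <;> simp [Tok.code] at h ⊢
  exact h

instance : TEnc Tok := ⟨fun t => toT t.code, fun _ _ h => Tok.code_injective (TEnc.inj h)⟩

/-- Reverse Polish notation of a term. -/
def Tm.toks : Tm → List Tok
  | var i => [Tok.var i]
  | zero => [Tok.zero]
  | one => [Tok.one]
  | add s t => s.toks ++ (t.toks ++ [Tok.add])
  | neg t => t.toks ++ [Tok.neg]
  | mul s t => s.toks ++ (t.toks ++ [Tok.mul])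

/-- Reverse Polish notation of a formula. -/
def Fm.toks : Fm → List Tok
  | eq s t => s.toks ++ (t.toks ++ [Tok.eq])
  | not φ => φ.toks ++ [Tok.not]
  | and φ ψ => φ.toks ++ (ψ.toks ++ [Tok.and])
  | or φ ψ => φ.toks ++ (ψ.toks ++ [Tok.or])

/-- The parser for reverse Polish notation, as a stack machine (with junk values on words that are
not well formed). -/
def pstep (st : List (Tm ⊕ Fm)) (t : Tok) : List (Tm ⊕ Fm) :=
  match t, st with
  | Tok.var i, st => Sum.inl (Tm.var i) :: st
  | Tok.zero, st => Sum.inl Tm.zero :: st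
  | Tok.one, st => Sum.inl Tm.one :: st
  | Tok.add, Sum.inl b :: Sum.inl a :: st => Sum.inl (Tm.add a b) :: st
  | Tok.neg, Sum.inl a :: st => Sum.inl (Tm.neg a) :: st
  | Tok.mul, Sum.inl b :: Sum.inl a :: st => Sum.inl (Tm.mul a b) :: st
  | Tok.eq, Sum.inl b :: Sum.inl a :: st => Sum.inr (Fm.eq a b) :: st
  | Tok.not, Sum.inr a :: st => Sum.inr (Fm.not a) :: st
  | Tok.and, Sum.inr b :: Sum.inr a :: st => Sum.inr (Fm.and a b) :: st
  | Tok.or, Sum.inr b :: Sum.inr a :: st => Sum.inr (Fm.or a b) :: st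
  | _, _ => []

theorem Tm.parse (t : Tm) : ∀ st, t.toks.foldl pstep st = Sum.inl t :: st := by
  induction t with
  | var i => intro st; rfl
  | zero => intro st; rfl
  | one => intro st; rfl
  | add s t ihs iht => intro st; simp [Tm.toks, ihs, iht, pstep]
  | neg t ih => intro st; simp [Tm.toks, ih, pstep]
  | mul s t ihs iht => intro st; simp [Tm.toks, ihs, iht, pstep]

theorem Fm.parse (φ : Fm) : ∀ st, φ.toks.foldl pstep st = Sum.inr φ :: st := by
  induction φ with
  | eq s t => intro st; simp [Fm.toks, Tm.parse, pstep]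
  | not φ ih => intro st; simp [Fm.toks, ih, pstep]
  | and φ ψ ih1 ih2 => intro st; simp [Fm.toks, ih1, ih2, pstep]
  | or φ ψ ih1 ih2 => intro st; simp [Fm.toks, ih1, ih2, pstep]

theorem Tm.toks_injective : Function.Injective Tm.toks := by
  intro φ ψ h
  have h1 := φ.parse []
  rw [h, ψ.parse] at h1
  simpa using h1.symm

theorem Fm.toks_injective : Function.Injective Fm.toks := by
  intro φ ψ h
  have h1 := φ.parse []
  rw [h, ψ.parse] at h1
  simpa using h1.symm

/-- Terms are encoded by their reverse Polish notation. -/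
instance : TEnc Tm := ⟨fun φ => toT φ.toks, fun _ _ h => Tm.toks_injective (TEnc.inj h)⟩

/-- Formulas are encoded by their reverse Polish notation. -/
instance : TEnc Fm := ⟨fun φ => toT φ.toks, fun _ _ h => Fm.toks_injective (TEnc.inj h)⟩

/-! ### Polynomial-time constructors -/

section

variable {α : Type} [TEnc α]

theorem poly_tok_of_code {f : α → Tok} (hf : Poly (fun a => (f a).code)) : Poly f := hf

theorem poly_tm_of_toks {f : α → Tm} (hf : Poly (fun a => (f a).toks)) : Poly f := hf

theorem poly_tm_toks {f : α → Tm} (hf : Poly f) : Poly (fun a => (f a).toks) := hf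

theorem poly_fm_of_toks {f : α → Fm} (hf : Poly (fun a => (f a).toks)) : Poly f := hf

theorem poly_fm_toks {f : α → Fm} (hf : Poly f) : Poly (fun a => (f a).toks) := hf

theorem Poly.tm_var {i : α → ℕ} (hi : Poly i) : Poly (fun a => Tm.var (i a)) :=
  poly_tm_of_toks (Poly.cons (poly_tok_of_code ((Poly.const 0).pair hi)) (Poly.const []))

theorem Poly.tm_add {s t : α → Tm} (hs : Poly s) (ht : Poly t) :
    Poly (fun a => Tm.add (s a) (t a)) :=
  poly_tm_of_toks (Poly.append (poly_tm_toks hs) (Poly.append (poly_tm_toks ht)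
    (Poly.const [Tok.add])))

theorem Poly.tm_mul {s t : α → Tm} (hs : Poly s) (ht : Poly t) :
    Poly (fun a => Tm.mul (s a) (t a)) :=
  poly_tm_of_toks (Poly.append (poly_tm_toks hs) (Poly.append (poly_tm_toks ht)
    (Poly.const [Tok.mul])))

theorem Poly.tm_neg {t : α → Tm} (ht : Poly t) :
    Poly (fun a => Tm.neg (t a)) :=
  poly_tm_of_toks (Poly.append (poly_tm_toks ht) (Poly.const [Tok.neg]))

/-- The product of a list of terms. -/
def prodT (l : List Tm) : Tm := l.foldl Tm.mul Tm.one

theorem toks_foldl_mul (l : List Tm) : ∀ t : Tm, (l.foldl Tm.mul t).toks =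
    t.toks ++ l.flatMap (fun s => s.toks ++ [Tok.mul]) := by
  induction l with
  | nil => intro t; simp
  | cons s l ih => intro t; simp [ih, Tm.toks]

theorem eval_foldl_mul (x : ℕ → ℚ) (l : List Tm) : ∀ t : Tm, (l.foldl Tm.mul t).eval x =
    t.eval x * (l.map (fun s => s.eval x)).prod := by
  induction l with
  | nil => intro t; simp
  | cons s l ih => intro t; simp [ih, Tm.eval, mul_assoc]

theorem eval_prodT (x : ℕ → ℚ) (l : List Tm) :
    (prodT l).eval x = (l.map (fun s => s.eval x)).prod := by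
  rw [prodT, eval_foldl_mul]
  simp [Tm.eval]

theorem Poly.prodT {l : α → List Tm} (hl : Poly l) : Poly (fun a => prodT (l a)) := by
  refine poly_tm_of_toks ?_
  have h : Poly (fun a => [Tok.one] ++ (l a).flatMap (fun s => s.toks ++ [Tok.mul])) :=
    Poly.append (Poly.const _) (Poly.flatMap (F := fun _ s => s.toks ++ [Tok.mul]) hl
      (Poly.append (poly_tm_toks (Poly.snd Poly.id)) (Poly.const _)))
  refine h.congr fun a => ?_
  rw [ExQ.prodT, toks_foldl_mul]
  rfl

/-- The conjunction of a list of equations. -/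
def conjF (l : List (Tm × Tm)) : Fm :=
  l.foldl (fun φ e => Fm.and φ (Fm.eq e.1 e.2)) (Fm.eq Tm.zero Tm.zero)

theorem toks_foldl_and (l : List (Tm × Tm)) : ∀ φ : Fm,
    (l.foldl (fun φ e => Fm.and φ (Fm.eq e.1 e.2)) φ).toks =
    φ.toks ++ l.flatMap (fun e => e.1.toks ++ (e.2.toks ++ [Tok.eq, Tok.and])) := by
  induction l with
  | nil => intro t; simp
  | cons s l ih => intro t; simp [ih, Fm.toks]

theorem holds_foldl_and (x : ℕ → ℚ) (l : List (Tm × Tm)) : ∀ φ : Fm,
    (l.foldl (fun φ e => Fm.and φ (Fm.eq e.1 e.2)) φ).Holds x ↔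
    φ.Holds x ∧ ∀ e ∈ l, e.1.eval x = e.2.eval x := by
  induction l with
  | nil => intro t; simp
  | cons s l ih => intro t; simp [ih, Fm.Holds, and_assoc]

theorem holds_conjF (x : ℕ → ℚ) (l : List (Tm × Tm)) :
    (conjF l).Holds x ↔ ∀ e ∈ l, e.1.eval x = e.2.eval x := by
  rw [conjF, holds_foldl_and]
  simp [Fm.Holds]

theorem Poly.conjF {l : α → List (Tm × Tm)} (hl : Poly l) : Poly (fun a => conjF (l a)) := by
  refine poly_fm_of_toks ?_
  have h : Poly (fun a => [Tok.zero, Tok.zero, Tok.eq] ++
      (l a).flatMap (fun e => e.1.toks ++ (e.2.toks ++ [Tok.eq, Tok.and]))) :=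
    Poly.append (Poly.const _) (Poly.flatMap
      (F := fun _ (e : Tm × Tm) => e.1.toks ++ (e.2.toks ++ [Tok.eq, Tok.and])) hl
      (Poly.append (poly_tm_toks (Poly.fst (Poly.snd Poly.id)))
        (Poly.append (poly_tm_toks (Poly.snd (Poly.snd Poly.id))) (Poly.const _))))
  refine h.congr fun a => ?_
  rw [ExQ.conjF, toks_foldl_and]
  rfl

end

attribute [fun_prop] Poly.tm_var Poly.tm_add Poly.tm_mul Poly.tm_neg Poly.prodT Poly.conjF

/-! ### Names of variables -/

/-- A pairing function. -/
def pr (a b : ℕ) : ℕ := (a + b) * (a + b) + a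

theorem pr_inj {a b c d : ℕ} (h : pr a b = pr c d) : a = c ∧ b = d := by
  unfold pr at h
  have h1 : a + b = c + d := by
    by_contra hne
    rcases Nat.lt_or_gt_of_ne hne with h2 | h2
    · nlinarith [Nat.zero_le a, Nat.zero_le b, Nat.zero_le c, Nat.zero_le d]
    · nlinarith [Nat.zero_le a, Nat.zero_le b, Nat.zero_le c, Nat.zero_le d]
  rw [h1] at h
  omega

/-- The index of the variable with name `(t, a, b, c)`. -/
def ix (t a b c : ℕ) : ℕ := pr t (pr a (pr b c))

theorem ix_injective : Function.Injective (fun q : ℕ × ℕ × ℕ × ℕ => ix q.1 q.2.1 q.2.2.1 q.2.2.2) := by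
  rintro ⟨t, a, b, c⟩ ⟨t', a', b', c'⟩ h
  obtain ⟨h1, h2⟩ := pr_inj h
  obtain ⟨h3, h4⟩ := pr_inj h2
  obtain ⟨h5, h6⟩ := pr_inj h4
  simp_all

/-- An assignment with prescribed values. -/
theorem exists_assign (V : ℕ → ℕ → ℕ → ℕ → ℚ) :
    ∃ x : ℕ → ℚ, ∀ t a b c, x (ix t a b c) = V t a b c := by
  obtain ⟨g, hg⟩ := ix_injective.hasLeftInverse
  refine ⟨fun n => V (g n).1 (g n).2.1 (g n).2.2.1 (g n).2.2.2, fun t a b c => ?_⟩
  have h := hg (t, a, b, c)
  simp only at h
  simp only [h]

theorem Poly.pr {α : Type} [TEnc α] {a b : α → ℕ} (ha : Poly a) (hb : Poly b) :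
    Poly (fun x => pr (a x) (b x)) := by
  unfold ExQ.pr
  exact Poly.add (Poly.mul (Poly.add ha hb) (Poly.add ha hb)) ha

theorem Poly.ix {α : Type} [TEnc α] {t a b c : α → ℕ} (ht : Poly t) (ha : Poly a) (hb : Poly b)
    (hc : Poly c) : Poly (fun x => ix (t x) (a x) (b x) (c x)) :=
  Poly.pr ht (Poly.pr ha (Poly.pr hb hc))

attribute [fun_prop] Poly.ix

end Pool.Agent.NPC.ExQ
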