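import Pool.Agent.H638R2.QHard

/-!
# A single polynomial equation
-/

namespace Pool.Agent.NPC.ExQ

open S3

/-- The sum of the squares of the differences of the two sides of the equations. -/
def sqT (l : List (Tm × Tm)) : Tm :=
  l.foldl (fun t e => Tm.add t (Tm.mul (Tm.add e.1 (Tm.neg e.2)) (Tm.add e.1 (Tm.neg e.2))))
    Tm.zero

theorem toks_foldl_sq (l : List (Tm × Tm)) : ∀ t : Tm,
    (l.foldl (fun t e => Tm.add t (Tm.mul (Tm.add e.1 (Tm.neg e.2)) (Tm.add e.1 (Tm.neg e.2))))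
      t).toks =
    t.toks ++ l.flatMap (fun e => (Tm.mul (Tm.add e.1 (Tm.neg e.2))
      (Tm.add e.1 (Tm.neg e.2))).toks ++ [Tok.add]) := by
  induction l with
  | nil => intro t; simp
  | cons s l ih =>
    intro t
    rw [List.foldl_cons, ih, List.flatMap_cons]
    simp only [Tm.toks, List.append_assoc]

theorem eval_foldl_sq (x : ℕ → ℚ) (l : List (Tm × Tm)) : ∀ t : Tm,
    (l.foldl (fun t e => Tm.add t (Tm.mul (Tm.add e.1 (Tm.neg e.2)) (Tm.add e.1 (Tm.neg e.2))))
      t).eval x =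
    t.eval x + (l.map (fun e => (e.1.eval x - e.2.eval x) ^ 2)).sum := by
  induction l with
  | nil => intro t; simp
  | cons s l ih =>
    intro t
    rw [List.foldl_cons, ih, List.map_cons, List.sum_cons]
    simp only [Tm.eval]
    ring

theorem sum_sq_eq_zero {β : Type} (l : List β) (f : β → ℚ) :
    (l.map (fun e => f e ^ 2)).sum = 0 ↔ ∀ e ∈ l, f e = 0 := by
  induction l with
  | nil => simp
  | cons a l ih =>
    rw [List.map_cons, List.sum_cons, List.forall_mem_cons, ← ih]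
    have h1 : 0 ≤ f a ^ 2 := sq_nonneg _
    have h2 : 0 ≤ (l.map (fun e => f e ^ 2)).sum := by
      apply List.sum_nonneg
      intro y hy
      rw [List.mem_map] at hy
      obtain ⟨b, _, rfl⟩ := hy
      exact sq_nonneg _
    constructor
    · intro h
      have h3 : f a ^ 2 = 0 := by linarith
      exact ⟨pow_eq_zero_iff (two_ne_zero) |>.1 h3, by linarith⟩
    · rintro ⟨h3, h4⟩
      rw [h3, h4]
      ring

theorem eval_sqT (x : ℕ → ℚ) (l : List (Tm × Tm)) : (sqT l).eval x = 0 ↔ SH x l := by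
  rw [sqT, eval_foldl_sq]
  simp only [Tm.eval, zero_add]
  rw [sum_sq_eq_zero l (fun e => e.1.eval x - e.2.eval x)]
  unfold SH
  exact forall_congr' fun e => imp_congr_right fun _ => sub_eq_zero

theorem Poly.sqT {α : Type} [TEnc α] {l : α → List (Tm × Tm)} (hl : Poly l) :
    Poly (fun a => sqT (l a)) := by
  refine poly_tm_of_toks ?_
  have h0 : Poly (fun e : Tm × Tm => Tm.mul (Tm.add e.1 (Tm.neg e.2)) (Tm.add e.1 (Tm.neg e.2))) :=
    by fun_prop
  have h : Poly (fun a => [Tok.zero] ++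
      (l a).flatMap (fun e => (Tm.mul (Tm.add e.1 (Tm.neg e.2))
      (Tm.add e.1 (Tm.neg e.2))).toks ++ [Tok.add])) :=
    Poly.append (Poly.const _) (Poly.flatMap
      (F := fun _ (e : Tm × Tm) => (Tm.mul (Tm.add e.1 (Tm.neg e.2))
      (Tm.add e.1 (Tm.neg e.2))).toks ++ [Tok.add]) hl
      (Poly.append (poly_tm_toks (h0.comp (Poly.snd Poly.id))) (Poly.const _)))
  refine h.congr fun a => ?_
  rw [ExQ.sqT, toks_foldl_sq]
  rfl

/-- Solvability of a single polynomial equation over the rational numbers. -/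
def SolvQ (t : Tm) : Prop := TrueQ (Fm.eq t Tm.zero)

theorem hardS3_SolvQ : HardS3 SolvQ := by
  have h : Poly (fun I : List Unit × List (List (Bool × ℕ)) => sqT (sysT I.1.length I.2)) :=
    Poly.sqT (poly_sysT (UPoly.length (Poly.fst Poly.id)) (Poly.snd Poly.id))
  refine hardS3_EAE.trans h fun I => ?_
  rw [EAE_iff]
  unfold SolvQ TrueQ
  refine exists_congr fun x => ?_
  rw [holds_conjF]
  exact (eval_sqT x _).symm

theorem main {L : Set (List Bool)} (hL : InSigma3 L) :
    ∃ f : List Bool → Tm, PolyTime (fun w => bits (Fm.eq (f w) Tm.zero)) ∧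
      ∀ w, w ∈ L ↔ TrueQ (Fm.eq (f w) Tm.zero) := by
  obtain ⟨f, hf, hfL⟩ := hardS3_SolvQ L hL
  have h1 : Poly (fun t : Tm => Fm.eq t Tm.zero) :=
    poly_fm_of_toks (Poly.append (poly_tm_toks Poly.id) (Poly.const [Tok.zero, Tok.eq]))
  exact ⟨f, PC.toPolyTime (PC.comp (g := fun t : Tm => Fm.eq t Tm.zero) h1 hf), hfL⟩

end Pool.Agent.NPC.ExQ
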