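import Pool.Agent.H596R2.Sigma2
import Pool.Agent.H671R2.PolyAuto

/-!
# The class `Σ₃ᵖ` and a `Σ₃ᵖ`-hard problem: `∃∀∃`-CNF
-/

namespace Pool.Agent.NPC.S3

open Turing CL S2

/-- The class `Σ₃ᵖ`: `x ∈ L` iff there is a string `u` of length `p(|x|)` such that for all strings
`v` of length `p(|x|)` there is a string `w` of length `p(|x|)` for which the polynomial-time
predicate `V` accepts `(x, u ++ v ++ w)`. -/
def InSigma3 (L : Set (List Bool)) : Prop :=
  ∃ (V : List Bool → List Bool) (p : Polynomial ℕ), PolyTime V ∧
    ∀ x, x ∈ L ↔ ∃ u : List Bool, u.length = p.eval x.length ∧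
      ∀ v : List Bool, v.length = p.eval x.length →
        ∃ w : List Bool, w.length = p.eval x.length ∧ V (pairBits x (u ++ (v ++ w))) = [true]

/-- `Σ₃ᵖ`-hardness under polynomial-time many-one reductions. -/
def Sigma3Hard (L : Set (List Bool)) : Prop := ∀ L', InSigma3 L' → Reduces L' L

/-- `Σ₃ᵖ`-hardness of a decision problem about encodable data. -/
def Sigma3HardP {α : Type} [TEnc α] (P : α → Prop) : Prop := Sigma3Hard (lang P)

/-- `Σ₃ᵖ`-hardness of a problem under reductions computed by programs. -/
def HardS3 {α : Type} [TEnc α] (P : α → Prop) : Prop :=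
  ∀ L : Set (List Bool), InSigma3 L → ∃ f : List Bool → α,
    PC (fun x : List Bool => x) (bits : α → List Bool) f ∧ ∀ x, x ∈ L ↔ P (f x)

theorem HardS3.trans {α β : Type} [TEnc α] [TEnc β] {P : α → Prop} {Q : β → Prop}
    (hP : HardS3 P) {f : α → β} (hf : Poly f) (h : ∀ a, (P a ↔ Q (f a))) : HardS3 Q := by
  intro L hL
  obtain ⟨g, hg, hgL⟩ := hP L hL
  exact ⟨fun x => f (g x), PC.comp hf hg, fun x => (hgL x).trans (h _)⟩

theorem HardS3.toSigma3HardP {α : Type} [TEnc α] {P : α → Prop} (hP : HardS3 P) :
    Sigma3HardP P := by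
  intro L hL
  obtain ⟨f, hf, hfL⟩ := hP L hL
  refine ⟨fun x => bits (f x), PC.toPolyTime hf, fun x => ?_⟩
  rw [hfL x, bits_mem_lang]

/-- The value of the variable `v`, where the first `s` variables are given by `Y`, the next `s`
ones by `X` and the others by `Z`. -/
def val3 (s : ℕ) (Y : ℕ → Bool) (X : Fin s → Bool) (Z : ℕ → Bool) (v : ℕ) : Bool :=
  if v < s then Y v else if h : v - s < s then X ⟨v - s, h⟩ else Z (v - s - s)

/-- The problem `∃∀∃`-CNF: an instance consists of a number `s` in unary and a list of
clauses. The variables `0, …, s - 1` are existential, the variables `s, …, 2s - 1` are universal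
and the other variables are existential again. -/
def EAE (I : List Unit × List (List (Bool × ℕ))) : Prop :=
  ∃ Y : ℕ → Bool, ∀ X : Fin I.1.length → Bool, ∃ Z : ℕ → Bool,
    ∀ c ∈ I.2, ∃ l ∈ c, val3 I.1.length Y X Z l.2 = l.1

section Compact

variable {U : Type} [TEnc U]

/-- Renaming all variables by numbers. -/
noncomputable def compact3 (s : List Unit) (D : List (List (Bool × (ℕ ⊕ U)))) :
    List Unit × List (List (Bool × ℕ)) :=
  (s, D.map (fun t => t.map (ren (s.length + s.length) (uvars D))))

theorem compact3_iff {s : List Unit} {D : List (List (Bool × (ℕ ⊕ U)))}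
    (hD : ∀ t ∈ D, ∀ l ∈ t, ∀ i, l.2 = Sum.inl i → i < s.length + s.length) :
    (∃ Y : ℕ → Bool, ∀ X : ℕ → Bool, ∃ Z : U → Bool, Holds (Sum.elim (mix s.length Y X) Z) D) ↔
      EAE (compact3 s D) := by
  have key : ∀ (Y X : ℕ → Bool) (X' : Fin s.length → Bool) (Z : U → Bool) (Z' : ℕ → Bool),
      (∀ i (h : i < s.length), X' ⟨i, h⟩ = X (s.length + i)) →
      (∀ u ∈ uvars D, Z u = Z' (index (uvars D) u)) →
      (Holds (Sum.elim (mix s.length Y X) Z) D ↔
        ∀ c ∈ (compact3 s D).2, ∃ l ∈ c, val3 s.length Y X' Z' l.2 = l.1) := by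
    intro Y X X' Z Z' hX hZ
    have hlit : ∀ t ∈ D, ∀ l ∈ t, Sum.elim (mix s.length Y X) Z l.2 =
        val3 s.length Y X' Z' (ren (s.length + s.length) (uvars D) l).2 := by
      rintro t ht ⟨b, v⟩ hl
      cases v with
      | inl i =>
        have := hD t ht _ hl i rfl
        change mix s.length Y X i = val3 s.length Y X' Z' i
        unfold mix val3
        by_cases h1 : i < s.length
        · rw [if_pos h1, if_pos h1]
        · have h2 : i - s.length < s.length := by omega
          rw [if_neg h1, if_neg h1, dif_pos h2, hX _ h2]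
          congr 1
          omega
      | inr u =>
        change Z u = val3 s.length Y X' Z' (s.length + s.length + index (uvars D) u)
        unfold val3
        rw [if_neg (by omega), dif_neg (by omega), hZ u (mem_uvars ht hl)]
        congr 1
        omega
    simp only [compact3]
    constructor
    · intro h c hc
      rw [List.mem_map] at hc
      obtain ⟨t, ht, rfl⟩ := hc
      obtain ⟨l, hl, hl'⟩ := h t ht
      exact ⟨_, List.mem_map.2 ⟨l, hl, rfl⟩, by rw [← hlit t ht l hl, hl']; rfl⟩
    · intro h t ht
      obtain ⟨l, hl, hl'⟩ := h _ (List.mem_map.2 ⟨t, ht, rfl⟩)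
      rw [List.mem_map] at hl
      obtain ⟨l0, hl0, rfl⟩ := hl
      exact ⟨l0, hl0, by rw [hlit t ht l0 hl0, hl']; rfl⟩
  unfold EAE
  constructor
  · rintro ⟨Y, hY⟩
    refine ⟨Y, fun X' => ?_⟩
    obtain ⟨Z, hZ⟩ := hY (fun i => if h : i - s.length < s.length then X' ⟨i - s.length, h⟩
      else false)
    refine ⟨fun n => match (uvars D)[n]? with
      | none => false
      | some u => Z u, ?_⟩
    refine (key Y _ X' Z _ ?_ ?_).1 hZ
    · intro i hi
      have h1 : s.length + i - s.length < s.length := by omega
      simp only [h1, dif_pos]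
      congr 1
      exact Fin.ext (by simp)
    · intro u hu
      rw [getElem?_index hu]
  · rintro ⟨Y, hY⟩
    refine ⟨Y, fun X => ?_⟩
    obtain ⟨Z', hZ'⟩ := hY (fun i => X (s.length + i))
    exact ⟨fun u => Z' (index (uvars D) u), (key Y X _ _ Z' (fun _ _ => rfl)
      (fun _ _ => rfl)).2 hZ'⟩

theorem poly_compact3 {α : Type} [TEnc α] {s : α → List Unit}
    {D : α → List (List (Bool × (ℕ ⊕ U)))} (hs : Poly s) (hD : Poly D) :
    Poly (fun a => compact3 (s a) (D a)) := by
  have hu : Poly (fun a => uvars (D a)) := by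
    refine Poly.flatMap (F := fun _ (l : Bool × (ℕ ⊕ U)) =>
      Sum.elim (fun _ => ([] : List U)) (fun u => [u]) l.2) (Poly.flatten hD) ?_
    exact poly_sumElim (o := fun x : α × (Bool × (ℕ ⊕ U)) => x.2.2)
      (g := fun _ _ => ([] : List U)) (h := fun _ u => [u])
      (Poly.snd (Poly.snd Poly.id)) (Poly.const []) (Poly.cons (Poly.snd Poly.id) (Poly.const []))
  refine Poly.pair hs ?_
  refine Poly.map (F := fun a t => t.map (ren ((s a).length + (s a).length) (uvars (D a)))) hD ?_
  refine Poly.map (F := fun (p : α × List (Bool × (ℕ ⊕ U))) l =>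
    ren ((s p.1).length + (s p.1).length) (uvars (D p.1)) l) (Poly.snd Poly.id) ?_
  have f1 : Poly (fun x : (α × List (Bool × (ℕ ⊕ U))) × (Bool × (ℕ ⊕ U)) => x.1.1) :=
    Poly.fst (Poly.fst Poly.id)
  refine Poly.pair (Poly.fst (Poly.snd Poly.id)) ?_
  have hl := Poly.length (hs.comp (f1.comp (Poly.fst Poly.id) : Poly
    (fun x : ((α × List (Bool × (ℕ ⊕ U))) × (Bool × (ℕ ⊕ U))) × U => x.1.1.1)))
  exact poly_sumElim (o := fun x : (α × List (Bool × (ℕ ⊕ U))) × (Bool × (ℕ ⊕ U)) => x.2.2)
    (g := fun _ i => i) (h := fun (x : (α × List (Bool × (ℕ ⊕ U))) ×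
    (Bool × (ℕ ⊕ U))) u => ((s x.1.1).length + (s x.1.1).length) + index (uvars (D x.1.1)) u)
    (Poly.snd (Poly.snd Poly.id)) (Poly.snd Poly.id)
    (Poly.add (Poly.add hl hl)
      (Poly.index (hu.comp (f1.comp (Poly.fst Poly.id))) (Poly.snd Poly.id)))

end Compact

theorem sigma3_tab {L : Set (List Bool)} (hL : InSigma3 L) :
    ∃ (tm : FinTM2) (inE : tm.Γ tm.k₀ ≃ Bool) (outE : tm.Γ tm.k₁ ≃ Bool) (p R : Polynomial ℕ),
      ∀ x, x ∈ L ↔ ∃ Y : ℕ → Bool, ∀ X : ℕ → Bool, ∃ Z, Holds (Sum.elim (mix (p.eval x.length) Y X)
        Z) (GG (tab tm inE outE) (2 * p.eval x.length) (3 * p.eval x.length)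
        (pairPre x) (R.eval x.length)) := by
  obtain ⟨V, p, hV, hL⟩ := hL
  have hV' : PolyTime (fun z => [decide (V z = [true])]) :=
    polyTime_test hV (g := fun w => decide (w = [true]))
      (Poly.decide_eq Poly.id (Poly.const [true]))
  obtain ⟨hW⟩ := hV'
  refine ⟨hW.tm, hW.inputAlphabet, hW.outputAlphabet, p,
    (hW.time.comp (Polynomial.C 2 * Polynomial.X + Polynomial.C 1 + Polynomial.C 3 * p)) *
      Polynomial.C (maxDepth hW.tm), fun x => ?_⟩
  set N := (((hW.time.comp (Polynomial.C 2 * Polynomial.X + Polynomial.C 1 +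
      Polynomial.C 3 * p)) * Polynomial.C (maxDepth hW.tm)).eval x.length) with hN
  have key : ∀ w : List Bool, w.length ≤ 3 * p.eval x.length →
      (V (pairBits x w) = [true] ↔
        Accepts (tab hW.tm hW.inputAlphabet hW.outputAlphabet)
        (run (tab hW.tm hW.inputAlphabet hW.outputAlphabet) (3 * p.eval x.length) (pairPre x) w
          N)) := by
    intro w hw
    have h0 : V (pairBits x w) = [true] ↔ [decide (V (pairBits x w) = [true])] = [true] := by
      simp
    rw [h0, pairBits_eq]
    refine tab_correct hW.tm hW.inputAlphabet hW.outputAlphabet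
      (fun z => [decide (V z = [true])]) _ _ _ _ _ hw
      (hW.outputsFun (pairPre x ++ w)) ?_
    rw [hN, Polynomial.eval_mul, Polynomial.eval_C, Polynomial.eval_comp]
    refine Nat.mul_le_mul_right _ (eval_mono _ ?_)
    simp only [id_eq, List.length_append, pairPre_length, Polynomial.eval_add,
      Polynomial.eval_mul, Polynomial.eval_C, Polynomial.eval_X]
    omega
  have hsym : Function.Injective (tab hW.tm hW.inputAlphabet hW.outputAlphabet).sym := by
    intro a b h
    have h1 : (Sum.inl (hW.inputAlphabet.symm a) : NA hW.tm) =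
        Sum.inl (hW.inputAlphabet.symm b) := h
    exact hW.inputAlphabet.symm.injective (Sum.inl_injective h1)
  have hGG := fun Y : ℕ → Bool => GG_iff (D := tab hW.tm hW.inputAlphabet hW.outputAlphabet)
    (fun q => by simp [tab]) (fun k => by simp [tab]) (fun o => by simp [tab]) hsym
    (q := 2 * p.eval x.length) (P := 3 * p.eval x.length) (by omega) (y := pairPre x) (N := N)
    (Y := Y)
  rw [hL x]
  set P := p.eval x.length with hP
  constructor
  · rintro ⟨u, hu, hall⟩
    refine ⟨fun i => u.getD i false, fun X => ?_⟩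
    obtain ⟨w, hw, hVw⟩ := hall ((List.range P).map (fun i => X (P + i))) (by simp)
    rw [hGG]
    have hlen : (u ++ ((List.range P).map (fun i => X (P + i)) ++ w)).length = 3 * P := by
      simp only [List.length_append, List.length_map, List.length_range]
      omega
    refine ⟨u ++ ((List.range P).map (fun i => X (P + i)) ++ w), hlen, ?_, ?_⟩
    · intro i hi
      by_cases h1 : i < P
      · rw [List.getElem?_append_left (by omega), mix, if_pos h1, List.getD_eq_getElem?_getD,
          List.getElem?_eq_getElem (by omega)]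
        rfl
      · rw [List.getElem?_append_right (by omega), hu,
          List.getElem?_append_left (by simp; omega), List.getElem?_map,
          List.getElem?_range (by omega), mix, if_neg h1]
        simp only [Option.map_some]
        congr 2
        omega
    · exact (key _ hlen.le).1 hVw
  · rintro ⟨Y, hY⟩
    refine ⟨(List.range P).map Y, by simp, fun v hv => ?_⟩
    obtain ⟨w, hw, hwY, hacc⟩ := (hGG _).1 (hY (fun i => v.getD (i - P) false))
    rw [← key w hw.le] at hacc
    have h1 : w = (List.range P).map Y ++ (v ++ w.drop (2 * P)) := by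
      apply List.ext_getElem?
      intro i
      by_cases hi : i < P
      · rw [List.getElem?_append_left (by simpa using hi), List.getElem?_map,
          List.getElem?_range hi, hwY i (by omega), mix, if_pos hi]
        rfl
      · rw [List.getElem?_append_right (by simpa using hi)]
        simp only [List.length_map, List.length_range]
        by_cases hi2 : i - P < P
        · rw [List.getElem?_append_left (by omega), hwY i (by omega), mix, if_neg hi,
            List.getD_eq_getElem?_getD, List.getElem?_eq_getElem (by omega)]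
          rfl
        · rw [List.getElem?_append_right (by omega), List.getElem?_drop, hv]
          congr 1
          omega
    refine ⟨w.drop (2 * P), by rw [List.length_drop]; omega, ?_⟩
    rw [← h1]
    exact hacc

/-- `∃∀∃`-CNF is `Σ₃ᵖ`-hard. -/
theorem hardS3_EAE : HardS3 EAE := by
  intro L hL
  obtain ⟨tm, inE, outE, p, R, h⟩ := sigma3_tab hL
  let _ := encFintype (NQ tm)
  let _ := encFintype tm.K
  let _ := encFintype (NA tm)
  let F : List Bool → List (List (Bool × (ℕ ⊕ Var (NQ tm) tm.K (NA tm)))) := fun x =>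
    (GG (tab tm inE outE) (2 * p.eval x.length) (3 * p.eval x.length) (pairPre x)
      (R.eval x.length))
  let S : List Bool → List Unit := fun x => List.replicate (p.eval x.length) ()
  have hS : Poly S := UPoly.eval (UPoly.length Poly.id) p
  have hp : UPoly (fun x : List Bool => 2 * p.eval x.length) :=
    UPoly.mul (UPoly.const 2) (UPoly.eval (UPoly.length Poly.id) p)
  have hP : UPoly (fun x : List Bool => 3 * p.eval x.length) :=
    UPoly.mul (UPoly.const 3) (UPoly.eval (UPoly.length Poly.id) p)
  have hF : Poly F := by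
    refine Poly.append ?_ (Poly.append ?_ ?_)
    · exact Poly.map (F := fun (_ : List Bool) (c : List (Bool × Var (NQ tm) tm.K (NA tm))) =>
          c.map (fun l => (l.1, (Sum.inr l.2 : ℕ ⊕ Var (NQ tm) tm.K (NA tm)))))
        (pFormula (tab tm inE outE) hP (pPre Poly.id)
          (UPoly.eval (UPoly.length Poly.id) R))
        (Poly.map (F := fun (_ : List Bool × List (Bool × Var (NQ tm) tm.K (NA tm)))
          (l : Bool × Var (NQ tm) tm.K (NA tm)) =>
          (l.1, (Sum.inr l.2 : ℕ ⊕ Var (NQ tm) tm.K (NA tm)))) (Poly.snd Poly.id)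
          (Poly.pair (Poly.fst (Poly.snd Poly.id)) (Poly.inr (Poly.snd (Poly.snd Poly.id)))))
    · exact Poly.map (F := fun _ j => [(false, Sum.inr (Var.ce 0 (tab tm inE outE).k₀ j none))])
        hP.range (pList1 (Poly.pair (Poly.const false) (Poly.inr (pCe (Poly.const 0)
          (Poly.const _) (Poly.snd Poly.id) (Poly.const none)))))
    · refine Poly.flatMap (F := fun (x : List Bool) i =>
        [[(false, Sum.inr (Var.ce 0 (tab tm inE outE).k₀ (3 * p.eval x.length - 1 - i)
            (some ((tab tm inE outE).sym true)))), (true, Sum.inl i)],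
          [(false, Sum.inr (Var.ce 0 (tab tm inE outE).k₀ (3 * p.eval x.length - 1 - i)
            (some ((tab tm inE outE).sym false)))), (false, Sum.inl i)]]) hp.range ?_
      have hidx : Poly (fun z : List Bool × ℕ => 3 * p.eval z.1.length - 1 - z.2) :=
        Poly.sub (Poly.sub (hP.toPoly.comp (Poly.fst Poly.id)) (Poly.const 1))
          (Poly.snd Poly.id)
      exact pList2
        (pList2 (Poly.pair (Poly.const false) (Poly.inr (pCe (Poly.const 0) (Poly.const _) hidx
          (Poly.const _)))) (Poly.pair (Poly.const true) (Poly.inl (Poly.snd Poly.id))))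
        (pList2 (Poly.pair (Poly.const false) (Poly.inr (pCe (Poly.const 0) (Poly.const _) hidx
          (Poly.const _)))) (Poly.pair (Poly.const false) (Poly.inl (Poly.snd Poly.id))))
  have hpr : ∀ x, ∀ c ∈ F x, ∀ l ∈ c, ∀ i, l.2 = Sum.inl i → i < (S x).length + (S x).length := by
    intro x c hc l0 hl0 i hi
    simp only [F] at hc
    rw [GG, List.mem_append, List.mem_append] at hc
    simp only [S, List.length_replicate]
    rcases hc with hc | hc | hc
    · rw [List.mem_map] at hc
      obtain ⟨c0, _, rfl⟩ := hc
      rw [List.mem_map] at hl0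
      obtain ⟨l1, _, rfl⟩ := hl0
      simp at hi
    · rw [List.mem_map] at hc
      obtain ⟨j, _, rfl⟩ := hc
      rw [List.mem_singleton] at hl0
      subst hl0
      simp at hi
    · rw [List.mem_flatMap] at hc
      obtain ⟨j, hj, hc⟩ := hc
      have hj := List.mem_range.1 hj
      simp only [List.mem_cons, List.not_mem_nil, or_false] at hc
      rcases hc with rfl | rfl
      · simp only [List.mem_cons, List.not_mem_nil, or_false] at hl0
        rcases hl0 with rfl | rfl
        · simp at hi
        · simp only [Sum.inl.injEq] at hi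
          omega
      · simp only [List.mem_cons, List.not_mem_nil, or_false] at hl0
        rcases hl0 with rfl | rfl
        · simp at hi
        · simp only [Sum.inl.injEq] at hi
          omega
  have hC : Poly (fun x : List Bool => compact3 (S x) (F x)) := poly_compact3 hS hF
  refine ⟨fun x => compact3 (S x) (F x), ?_, fun x => ?_⟩
  · exact PC.comp (ea := fun x : List Bool => x) (eb := (bits : List Bool → List Bool))
      (ec := bits) (g := fun x : List Bool => compact3 (S x) (F x)) (f := fun x => x) hC PC.ofBits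
  · rw [h x, ← compact3_iff (hpr x)]
    simp only [S, F, List.length_replicate]

end Pool.Agent.NPC.S3
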