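import Pool.Agent.H638R2.QSys
import Pool.Agent.H638R2.Sigma3

/-!
# The existential theory of the rational numbers is `Σ₃ᵖ`-hard
-/

namespace Pool.Agent.NPC.ExQ

open Pool.Agent.H573R2.Sys3 Pool.Agent.H573R2.Places S3

section

variable {α : Type} [TEnc α]

theorem poly_gadget {tb i : α → ℕ} {A O : α → Tm} {n : α → ℕ} (htb : Poly tb) (hi : Poly i)
    (hA : Poly A) (hO : Poly O) (hn : UPoly n) :
    Poly (fun a => gadget (tb a) (i a) (A a) (O a) (n a)) := by
  have hnP : Poly n := hn.toPoly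
  have hr : Poly (fun a => List.range (n a)) := hn.range
  have hr2 : Poly (fun a => List.range (n a + 1)) := (hn.add (UPoly.const 1)).range
  have hr1 : Poly (fun p : α × ℕ => List.range (n p.1 + 1)) := hr2.comp (Poly.fst Poly.id)
  unfold gadget
  refine Poly.cons (by fun_prop) (Poly.cons (by fun_prop) (Poly.cons (by fun_prop)
    (Poly.append (Poly.flatMap (F := fun a k => (v4 (tb a + 1) (i a) k 0, Tm.one) ::
    (v4 (tb a) (i a) (k + 1) 0, v4 (tb a + 1) (i a) k (k + 1)) ::
    (List.range (n a + 1)).map (fun j =>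
      (v4 (tb a + 1) (i a) k (j + 1), Tm.mul (v4 (tb a + 1) (i a) k j) (v4 (tb a) (i a) k 0))))
      hr ?_)
      (Poly.map (F := fun a j =>
      (v4 (tb a + 2) (i a) (j + 1) 0, Tm.mul (v4 (tb a + 2) (i a) j 0) (v4 (tb a) (i a) (n a) 0)))
      hr2 (by fun_prop)))))
  refine Poly.cons (by fun_prop) (Poly.cons (by fun_prop) ?_)
  exact Poly.map (F := fun (p : α × ℕ) j =>
      (v4 (tb p.1 + 1) (i p.1) p.2 (j + 1), Tm.mul (v4 (tb p.1 + 1) (i p.1) p.2 j)
        (v4 (tb p.1) (i p.1) p.2 0))) hr1 (by fun_prop)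

theorem poly_nums {n : α → ℕ} (hn : UPoly n) : Poly (fun a => nums (n a)) := by
  have hnP : Poly n := hn.toPoly
  have hr : Poly (fun a => List.range (n a)) := hn.range
  unfold nums
  refine Poly.cons (by fun_prop) (Poly.cons (by fun_prop) (Poly.cons (by fun_prop)
    (Poly.flatMap (F := fun a i => [(v4 1 (i + 1) 0 0, Tm.add (v4 1 i 0 0) Tm.one),
     (v4 2 (i + 1) 0 0, Tm.mul (v4 2 i 0 0) (v4 1 (i + 1) 0 0)),
     (v4 3 i 0 0, Tm.add Tm.one (Tm.mul (Tm.add Tm.one Tm.one)
        (Tm.mul (v4 1 (i + 1) 0 0) (v4 2 (n a) 0 0)))),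
     (v4 4 (i + 1) 0 0, Tm.mul (v4 4 i 0 0) (v4 3 i 0 0))]) hr (by fun_prop))))

theorem poly_pows {n : α → ℕ} (hn : UPoly n) : Poly (fun a => pows (n a)) := by
  have hnP : Poly n := hn.toPoly
  have hr : Poly (fun a => List.range (n a)) := hn.range
  have hn' : UPoly (fun p : α × ℕ => n p.1) := hn.comp (Poly.fst Poly.id)
  unfold pows
  refine Poly.cons (by fun_prop) (Poly.append (Poly.flatMap (F := fun a i =>
    gadget 10 i (v4 5 i 0 0) (v4 5 (i + 1) 0 0) (n a)) hr ?_) (Poly.flatMap (F := fun a i =>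
    gadget 13 i (v4 6 i 0 0) (v4 5 (n a) 0 0) (n a)) hr ?_))
  · exact poly_gadget (by fun_prop) (by fun_prop) (by fun_prop) (by fun_prop) hn'
  · exact poly_gadget (by fun_prop) (by fun_prop) (by fun_prop) (by fun_prop) hn'

theorem poly_gT {n : α → ℕ} (hn : Poly n) : Poly (fun a => gT (n a)) := by
  unfold gT
  fun_prop

theorem poly_two {t : α → Tm} (ht : Poly t) : Poly (fun a => two (t a)) := by
  unfold two
  fun_prop

attribute [fun_prop] poly_gT poly_two

theorem poly_cert {t i n : α → ℕ} {c : α → Tm} (ht : Poly t) (hi : Poly i) (hn : Poly n)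
    (hc : Poly c) : Poly (fun a => cert (t a) (i a) (n a) (c a)) := by
  unfold cert
  fun_prop

theorem poly_litT {n : α → ℕ} {l : α → Bool × ℕ} (hn : Poly n) (hl : Poly l) :
    Poly (fun a => litT (n a) (l a)) := by
  unfold litT
  fun_prop

attribute [fun_prop] poly_cert poly_litT

theorem poly_sysT {n : α → ℕ} {cls : α → List (List (Bool × ℕ))} (hn : UPoly n)
    (hcls : Poly cls) : Poly (fun a => sysT (n a) (cls a)) := by
  have hnP : Poly n := hn.toPoly
  have hr : Poly (fun a => List.range (n a)) := hn.range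
  unfold sysT
  refine Poly.append (Poly.map (F := fun _ i => (Tm.mul (v4 0 i 0 0) (v4 0 i 0 0), v4 0 i 0 0))
    hr (by fun_prop)) (Poly.append (poly_nums hn) (Poly.append (poly_pows hn) (Poly.append ?_
    (Poly.append ?_ (Poly.append ?_ ?_)))))
  · exact Poly.map (F := fun a i =>
      (Tm.mul (v4 7 i 0 0) (Tm.add (v4 6 i 0 0) Tm.one), gT (n a))) hr (by fun_prop)
  · exact Poly.map (F := fun a i => cert 16 i (n a) (two (Tm.add (Tm.mul (v4 3 i 0 0)
      (v4 8 i 0 0)) (Tm.neg (v4 7 i 0 0))))) hr (by fun_prop)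
  · exact Poly.map (F := fun a (l : Bool × ℕ) => cert 17 (l.2 - n a - n a) (n a)
      (two (Tm.mul (v4 9 (l.2 - n a - n a) 0 0)
      (Tm.add (v4 9 (l.2 - n a - n a) 0 0) (Tm.neg Tm.one))))) (Poly.flatten hcls) (by fun_prop)
  · refine Poly.map (F := fun a (c : List (Bool × ℕ) × ℕ) => cert 18 c.2 (n a)
      (two (prodT (c.1.map (litT (n a)))))) (Poly.zipIdx hcls) ?_
    have h1 : Poly (fun p : α × (List (Bool × ℕ) × ℕ) => p.2.1.map (litT (n p.1))) :=
      Poly.map (F := fun (p : α × (List (Bool × ℕ) × ℕ)) l => litT (n p.1) l)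
        (Poly.fst (Poly.snd Poly.id)) (by fun_prop)
    exact poly_cert (by fun_prop) (by fun_prop) (by fun_prop) (poly_two (Poly.prodT h1))

end

theorem EAE_iff (I : List Unit × List (List (Bool × ℕ))) :
    EAE I ↔ TrueQ (conjF (sysT I.1.length I.2)) := by
  set n := I.1.length with hn
  have h1 : EAE I ↔ ∃ z : ℕ → Bool, ∀ x : Fin n → Bool, ∃ y : ℕ → Bool,
      ∀ C ∈ I.2.map (fun c => c.map (fun l => (l.1, conv n l.2))), ∃ l ∈ C,
        Sum.elim z (Sum.elim x y) l.2 = l.1 := by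
    unfold EAE
    refine exists_congr fun z => forall_congr' fun x => exists_congr fun y => ?_
    have hval : ∀ v, val3 n z x y v = Sum.elim z (Sum.elim x y) (conv n v) := by
      intro v
      unfold val3 conv
      by_cases h1 : v < n
      · rw [if_pos h1, if_pos h1]; rfl
      · rw [if_neg h1, if_neg h1]
        by_cases h2 : v - n < n
        · rw [dif_pos h2, dif_pos h2]; rfl
        · rw [dif_neg h2, dif_neg h2]; rfl
    constructor
    · intro h C hC
      rw [List.mem_map] at hC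
      obtain ⟨c, hc, rfl⟩ := hC
      obtain ⟨l, hl, hl'⟩ := h c hc
      exact ⟨_, List.mem_map.2 ⟨l, hl, rfl⟩, by rw [← hl', ← hval]⟩
    · intro h c hc
      obtain ⟨l, hl, hl'⟩ := h _ (List.mem_map.2 ⟨c, hc, rfl⟩)
      rw [List.mem_map] at hl
      obtain ⟨l0, hl0, rfl⟩ := hl
      exact ⟨l0, hl0, by rw [hval]; exact hl'⟩
  rw [h1, sys3_iff (mm_adm n)]
  unfold TrueQ
  constructor
  · rintro ⟨z, X, w, B, E, Y, h⟩
    obtain ⟨x, hx⟩ := sysT_complete h
    exact ⟨x, (holds_conjF x _).2 hx⟩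
  · rintro ⟨x, hx⟩
    exact sysT_sound ((holds_conjF x _).1 hx)

/-- The existential theory of the rational numbers is `Σ₃ᵖ`-hard. -/
theorem sigma3Hard_TrueQ : Sigma3HardP TrueQ := by
  have h : Poly (fun I : List Unit × List (List (Bool × ℕ)) => conjF (sysT I.1.length I.2)) :=
    Poly.conjF (poly_sysT (UPoly.length (Poly.fst Poly.id)) (Poly.snd Poly.id))
  exact (hardS3_EAE.trans h EAE_iff).toSigma3HardP

end Pool.Agent.NPC.ExQ
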