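import Pool.Agent.H638R2.QDefs
import Pool.Agent.H573R2.Sys3

/-!
# The system of equations, as a list of equations between terms
-/

namespace Pool.Agent.NPC.ExQ

open Pool.Agent.H573R2.Sys3 Pool.Agent.H573R2.Places

/-- A system holds at a point. -/
def SH (x : ℕ → ℚ) (l : List (Tm × Tm)) : Prop := ∀ e ∈ l, e.1.eval x = e.2.eval x

theorem SH_append {x : ℕ → ℚ} {l l' : List (Tm × Tm)} : SH x (l ++ l') ↔ SH x l ∧ SH x l' := by
  simp [SH, or_imp, forall_and]

theorem SH_cons {x : ℕ → ℚ} {e : Tm × Tm} {l : List (Tm × Tm)} :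
    SH x (e :: l) ↔ e.1.eval x = e.2.eval x ∧ SH x l := by
  simp [SH]

theorem SH_nil {x : ℕ → ℚ} : SH x [] := by simp [SH]

theorem SH_flatMap {β : Type} {x : ℕ → ℚ} {l : List β} {F : β → List (Tm × Tm)} :
    SH x (l.flatMap F) ↔ ∀ a ∈ l, SH x (F a) := by
  simp only [SH, List.mem_flatMap]
  exact ⟨fun h a ha e he => h e ⟨a, ha, he⟩, fun h e ⟨a, ha, he⟩ => h a ha e he⟩

theorem SH_map {β : Type} {x : ℕ → ℚ} {l : List β} {F : β → Tm × Tm} :
    SH x (l.map F) ↔ ∀ a ∈ l, (F a).1.eval x = (F a).2.eval x := by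
  simp [SH]

/-- The variable with name `(t, a, b, c)`. -/
def v4 (t a b c : ℕ) : Tm := Tm.var (ix t a b c)

theorem Poly.v4 {α : Type} [TEnc α] {t a b c : α → ℕ} (ht : Poly t) (ha : Poly a) (hb : Poly b)
    (hc : Poly c) : Poly (fun x => v4 (t x) (a x) (b x) (c x)) :=
  Poly.tm_var (Poly.ix ht ha hb hc)

attribute [fun_prop] Poly.v4

/-- The equations expressing `o = a ^ (1 + 2 (i + 1) n!)`. -/
def gadget (tb i : ℕ) (a o : Tm) (n : ℕ) : List (Tm × Tm) :=
  (v4 tb i 0 0, a) :: (v4 (tb + 2) i 0 0, Tm.one) ::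
  (o, Tm.mul a (Tm.mul (v4 (tb + 2) i (i + 1) 0) (v4 (tb + 2) i (i + 1) 0))) ::
  ((List.range n).flatMap (fun k => (v4 (tb + 1) i k 0, Tm.one) ::
    (v4 tb i (k + 1) 0, v4 (tb + 1) i k (k + 1)) ::
    (List.range (n + 1)).map (fun j =>
      (v4 (tb + 1) i k (j + 1), Tm.mul (v4 (tb + 1) i k j) (v4 tb i k 0)))) ++
  (List.range (n + 1)).map (fun j =>
      (v4 (tb + 2) i (j + 1) 0, Tm.mul (v4 (tb + 2) i j 0) (v4 tb i n 0))))

theorem gadget_sound {x : ℕ → ℚ} {tb i : ℕ} {a o : Tm} {n : ℕ} (hi : i < n)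
    (h : SH x (gadget tb i a o n)) :
    o.eval x = a.eval x ^ (1 + 2 * ((i + 1) * n.factorial)) := by
  unfold gadget at h
  rw [SH_cons, SH_cons, SH_cons, SH_append, SH_flatMap, SH_map] at h
  obtain ⟨h0, h1, h2, h3, h4⟩ := h
  simp only [v4, Tm.eval] at h0 h1 h2 h4
  have hq : ∀ k ≤ n, x (ix tb i k 0) = a.eval x ^ k.factorial := by
    intro k
    induction k with
    | zero => intro _; rw [h0]; simp
    | succ k ih =>
      intro hk
      have hk' := ih (by omega)
      have h5 := h3 k (List.mem_range.2 (by omega))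
      rw [SH_cons, SH_cons, SH_map] at h5
      obtain ⟨h6, h7, h8⟩ := h5
      simp only [v4, Tm.eval] at h6 h7 h8
      have h9 : ∀ j ≤ k + 1, x (ix (tb + 1) i k j) = (a.eval x ^ k.factorial) ^ j := by
        intro j
        induction j with
        | zero => intro _; rw [h6]; simp
        | succ j ihj =>
          intro hj
          rw [h8 j (List.mem_range.2 (by omega)), ihj (by omega), hk']
          ring
      rw [h7, h9 (k + 1) le_rfl, Nat.factorial_succ, ← pow_mul]
      congr 1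
      ring
  have hS : ∀ j ≤ n, x (ix (tb + 2) i j 0) = (a.eval x ^ n.factorial) ^ j := by
    intro j
    induction j with
    | zero => intro _; rw [h1]; simp
    | succ j ihj =>
      intro hj
      rw [h4 j (List.mem_range.2 (by omega)), ihj (by omega), hq n le_rfl]
      ring
  rw [h2, hS (i + 1) (by omega)]
  ring

theorem gadget_complete {x : ℕ → ℚ} {tb i : ℕ} {a o : Tm} {n : ℕ} {A : ℚ} (ha : a.eval x = A)
    (ho : o.eval x = A ^ (1 + 2 * ((i + 1) * n.factorial)))
    (hq : ∀ k, x (ix tb i k 0) = A ^ k.factorial)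
    (hr : ∀ k j, x (ix (tb + 1) i k j) = (A ^ k.factorial) ^ j)
    (hS : ∀ j, x (ix (tb + 2) i j 0) = (A ^ n.factorial) ^ j) :
    SH x (gadget tb i a o n) := by
  unfold gadget
  rw [SH_cons, SH_cons, SH_cons, SH_append, SH_flatMap, SH_map]
  simp only [v4, Tm.eval, ha, ho, hq, hS]
  refine ⟨by simp, by simp, by ring, ?_, ?_⟩
  · intro k _
    rw [SH_cons, SH_cons, SH_map]
    simp only [Tm.eval, hq, hr]
    refine ⟨by simp, ?_, fun j _ => by ring⟩
    rw [Nat.factorial_succ, ← pow_mul]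
    congr 1
    ring
  · intro j _
    ring

/-- The numbers `m i`. -/
def mm (n i : ℕ) : ℕ := 1 + 2 * ((i + 1) * n.factorial)

/-- Equations for the numbers `i`, `i!`, `m i` and `∏ j < i, m j`. -/
def nums (n : ℕ) : List (Tm × Tm) :=
  (v4 1 0 0 0, Tm.zero) :: (v4 2 0 0 0, Tm.one) :: (v4 4 0 0 0, Tm.one) ::
  (List.range n).flatMap (fun i =>
    [(v4 1 (i + 1) 0 0, Tm.add (v4 1 i 0 0) Tm.one),
     (v4 2 (i + 1) 0 0, Tm.mul (v4 2 i 0 0) (v4 1 (i + 1) 0 0)),
     (v4 3 i 0 0, Tm.add Tm.one (Tm.mul (Tm.add Tm.one Tm.one)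
        (Tm.mul (v4 1 (i + 1) 0 0) (v4 2 n 0 0)))),
     (v4 4 (i + 1) 0 0, Tm.mul (v4 4 i 0 0) (v4 3 i 0 0))])

theorem nums_sound {x : ℕ → ℚ} {n : ℕ} (h : SH x (nums n)) :
    (∀ i < n, x (ix 3 i 0 0) = mm n i) ∧
      x (ix 4 n 0 0) = ((∏ i ∈ Finset.range n, mm n i : ℕ) : ℚ) := by
  unfold nums at h
  rw [SH_cons, SH_cons, SH_cons, SH_flatMap] at h
  obtain ⟨h0, h1, h2, h3⟩ := h
  simp only [v4, Tm.eval] at h0 h1 h2
  have hc : ∀ i ≤ n, x (ix 1 i 0 0) = i := by
    intro i
    induction i with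
    | zero => intro _; rw [h0]; simp
    | succ i ih =>
      intro hi
      have h5 := h3 i (List.mem_range.2 (by omega))
      simp only [SH_cons, SH_nil, v4, Tm.eval, and_true] at h5
      rw [h5.1, ih (by omega)]
      push_cast
      ring
  have hf : ∀ i ≤ n, x (ix 2 i 0 0) = i.factorial := by
    intro i
    induction i with
    | zero => intro _; rw [h1]; simp
    | succ i ih =>
      intro hi
      have h5 := h3 i (List.mem_range.2 (by omega))
      simp only [SH_cons, SH_nil, v4, Tm.eval, and_true] at h5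
      rw [h5.2.1, ih (by omega), hc (i + 1) (by omega), Nat.factorial_succ]
      push_cast
      ring
  have hM : ∀ i < n, x (ix 3 i 0 0) = mm n i := by
    intro i hi
    have h5 := h3 i (List.mem_range.2 (by omega))
    simp only [SH_cons, SH_nil, v4, Tm.eval, and_true] at h5
    rw [h5.2.2.1, hc (i + 1) (by omega), hf n le_rfl, mm]
    push_cast
    ring
  refine ⟨hM, ?_⟩
  have hp : ∀ i ≤ n, x (ix 4 i 0 0) = ((∏ j ∈ Finset.range i, mm n j : ℕ) : ℚ) := by
    intro i
    induction i with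
    | zero => intro _; rw [h2]; simp
    | succ i ih =>
      intro hi
      have h5 := h3 i (List.mem_range.2 (by omega))
      simp only [SH_cons, SH_nil, v4, Tm.eval, and_true] at h5
      rw [h5.2.2.2, ih (by omega), hM i (by omega), Finset.prod_range_succ]
      push_cast
      ring
  exact hp n le_rfl

theorem nums_complete {x : ℕ → ℚ} {n : ℕ} (hc : ∀ i, x (ix 1 i 0 0) = i)
    (hf : ∀ i, x (ix 2 i 0 0) = i.factorial) (hM : ∀ i, x (ix 3 i 0 0) = mm n i)
    (hp : ∀ i, x (ix 4 i 0 0) = ((∏ j ∈ Finset.range i, mm n j : ℕ) : ℚ)) : SH x (nums n) := by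
  unfold nums
  rw [SH_cons, SH_cons, SH_cons, SH_flatMap]
  simp only [v4, Tm.eval, hc, hf, hp]
  refine ⟨by simp, by simp, by simp, ?_⟩
  intro i _
  simp only [SH_cons, SH_nil, v4, Tm.eval, and_true, hc, hf, hM, hp]
  refine ⟨by push_cast; ring, ?_, ?_, ?_⟩
  · rw [Nat.factorial_succ]; push_cast; ring
  · unfold mm; push_cast; ring
  · rw [Finset.prod_range_succ]; push_cast; ring

/-- The equations for the powers. -/
def pows (n : ℕ) : List (Tm × Tm) :=
  (v4 5 0 0 0, Tm.add (v4 4 n 0 0) (v4 4 n 0 0)) ::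
  ((List.range n).flatMap (fun i => gadget 10 i (v4 5 i 0 0) (v4 5 (i + 1) 0 0) n) ++
  (List.range n).flatMap (fun i => gadget 13 i (v4 6 i 0 0) (v4 5 n 0 0) n))

/-- The number `G = X + 1`. -/
def gT (n : ℕ) : Tm := Tm.add (v4 5 n 0 0) Tm.one

/-- The term `2 t`. -/
def two (t : Tm) : Tm := Tm.mul (Tm.add Tm.one Tm.one) t

/-- The certificate equation for `c`, with auxiliary variables named by `(t, i)`. -/
def cert (t i n : ℕ) (c : Tm) : Tm × Tm :=
  (Tm.add (Tm.add (gT n) (Tm.mul c c)) (Tm.mul (v4 t i 0 0) (v4 t i 0 0)),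
   Tm.mul (gT n) (Tm.add (Tm.mul (v4 t i 1 0) (v4 t i 1 0)) (Tm.mul (v4 t i 2 0) (v4 t i 2 0))))

theorem cert_iff {x : ℕ → ℚ} {t i n : ℕ} {c : Tm} :
    (cert t i n c).1.eval x = (cert t i n c).2.eval x ↔
      x (ix 5 n 0 0) + 1 + c.eval x ^ 2 + x (ix t i 0 0) ^ 2 =
        (x (ix 5 n 0 0) + 1) * (x (ix t i 1 0) ^ 2 + x (ix t i 2 0) ^ 2) := by
  simp only [cert, gT, v4, Tm.eval]
  constructor <;> intro h <;> linear_combination h

/-- The factor `1 - l` of a literal `l`. -/
def litT (n : ℕ) (l : Bool × ℕ) : Tm :=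
  if l.1 then Tm.add Tm.one (Tm.neg (if l.2 < n then v4 0 l.2 0 0 else
    if l.2 - n < n then v4 8 (l.2 - n) 0 0 else v4 9 (l.2 - n - n) 0 0))
  else (if l.2 < n then v4 0 l.2 0 0 else
    if l.2 - n < n then v4 8 (l.2 - n) 0 0 else v4 9 (l.2 - n - n) 0 0)

/-- The whole system. -/
def sysT (n : ℕ) (cls : List (List (Bool × ℕ))) : List (Tm × Tm) :=
  (List.range n).map (fun i => (Tm.mul (v4 0 i 0 0) (v4 0 i 0 0), v4 0 i 0 0)) ++
  (nums n ++ (pows n ++
  ((List.range n).map (fun i => (Tm.mul (v4 7 i 0 0) (Tm.add (v4 6 i 0 0) Tm.one), gT n)) ++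
  ((List.range n).map (fun i => cert 16 i n (two (Tm.add (Tm.mul (v4 3 i 0 0) (v4 8 i 0 0))
    (Tm.neg (v4 7 i 0 0))))) ++
  (cls.flatten.map (fun l => cert 17 (l.2 - n - n) n (two (Tm.mul (v4 9 (l.2 - n - n) 0 0)
    (Tm.add (v4 9 (l.2 - n - n) 0 0) (Tm.neg Tm.one))))) ++
  cls.zipIdx.map (fun c => cert 18 c.2 n (two (prodT (c.1.map (litT n)))))
  )))))

/-- The variable `v` among the three blocks. -/
def conv (n : ℕ) (v : ℕ) : ℕ ⊕ Fin n ⊕ ℕ :=
  if v < n then Sum.inl v else if h : v - n < n then Sum.inr (Sum.inl ⟨v - n, h⟩)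
  else Sum.inr (Sum.inr (v - n - n))

theorem litT_eval {x : ℕ → ℚ} {n : ℕ} {z : ℕ → ℚ} {E : Fin n → ℚ} {Y : ℕ → ℚ} {l : Bool × ℕ}
    (hz : l.2 < n → x (ix 0 l.2 0 0) = z l.2)
    (hE : ∀ h : l.2 - n < n, x (ix 8 (l.2 - n) 0 0) = E ⟨l.2 - n, h⟩)
    (hY : x (ix 9 (l.2 - n - n) 0 0) = Y (l.2 - n - n)) :
    (litT n l).eval x = 1 - lv (Sum.elim z (Sum.elim E Y)) (l.1, conv n l.2) := by
  have key : (if l.2 < n then v4 0 l.2 0 0 else
    if l.2 - n < n then v4 8 (l.2 - n) 0 0 else v4 9 (l.2 - n - n) 0 0).eval x =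
      Sum.elim z (Sum.elim E Y) (conv n l.2) := by
    unfold conv
    by_cases h1 : l.2 < n
    · rw [if_pos h1, if_pos h1]
      exact hz h1
    · rw [if_neg h1, if_neg h1]
      by_cases h2 : l.2 - n < n
      · rw [if_pos h2, dif_pos h2]
        exact hE h2
      · rw [if_neg h2, dif_neg h2]
        exact hY
  unfold litT lv
  rcases hb : l.1 with _ | _
  · simp only [Bool.false_eq_true, if_false, key]
    ring
  · simp only [if_true, Tm.eval, key]
    ring

theorem mm_odd (n i : ℕ) : Odd (mm n i) := by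
  unfold mm
  rw [add_comm]
  exact odd_two_mul_add_one _

theorem mm_adm (n : ℕ) : Adm (fun i : Fin n => mm n i) (2 * ∏ i ∈ Finset.range n, mm n i) where
  odd i := mm_odd n i
  three i := by
    unfold mm
    have : 0 < (i.1 + 1) * n.factorial := Nat.mul_pos (by omega) (Nat.factorial_pos n)
    omega
  cop i j hij := by
    have key : ∀ i j : ℕ, i < j → j < n → Nat.Coprime (mm n i) (mm n j) := by
      intro i j hij hj
      apply Nat.coprime_of_dvd
      intro p hp h1 h2
      -- `p` divides `(j - i) · (2 n!)`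
      have h3 : p ∣ mm n j - mm n i := Nat.dvd_sub h2 h1
      have h4 : mm n j - mm n i = (j - i) * (2 * n.factorial) := by
        obtain ⟨t, rfl⟩ := Nat.exists_eq_add_of_lt hij
        unfold mm
        have : i + t + 1 - i = t + 1 := by omega
        rw [this]
        have h5 : 1 + 2 * ((i + t + 1 + 1) * n.factorial) =
            (t + 1) * (2 * n.factorial) + (1 + 2 * ((i + 1) * n.factorial)) := by ring
        rw [h5, Nat.add_sub_cancel]
      rw [h4] at h3
      have h5 : ¬ p ∣ 2 * n.factorial := by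
        intro h6
        have h7 : p ∣ 2 * ((i + 1) * n.factorial) := by
          have : 2 * ((i + 1) * n.factorial) = (2 * n.factorial) * (i + 1) := by ring
          rw [this]
          exact Dvd.dvd.mul_right h6 _
        have h8 : p ∣ 1 := by
          have := (Nat.dvd_add_iff_left h7 (m := 1)).2 h1
          exact this
        exact hp.one_lt.ne' (Nat.dvd_one.1 h8)
      rcases (hp.dvd_mul).1 h3 with h6 | h6
      · apply h5
        have h7 : p ≤ j - i := Nat.le_of_dvd (by omega) h6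
        exact Dvd.dvd.mul_left ((hp.dvd_factorial).2 (by omega)) 2
      · exact h5 h6
    rcases Nat.lt_or_gt_of_ne (fun h => hij (Fin.ext h)) with h | h
    · exact key i j h j.2
    · exact (key j i h i.2).symm
  bmod := by
    have h : Odd (∏ i ∈ Finset.range n, mm n i) := by
      apply Finset.prod_induction _ Odd (fun a b ha hb => ha.mul hb) odd_one
      intro i _
      exact mm_odd n i
    obtain ⟨t, ht⟩ := h
    rw [ht]
    omega
  dvd i := Dvd.dvd.mul_left (Finset.dvd_prod_of_mem _ (Finset.mem_range.2 i.2)) 2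

theorem prod_mm (n : ℕ) : ∏ i : Fin n, mm n i = ∏ i ∈ Finset.range n, mm n i :=
  Fin.prod_univ_eq_prod_range (mm n) n

theorem sysT_sound {x : ℕ → ℚ} {n : ℕ} {cls : List (List (Bool × ℕ))} (h : SH x (sysT n cls)) :
    ∃ (z : ℕ → ℚ) (X : ℚ) (w B E : Fin n → ℚ) (Y : ℕ → ℚ),
      Sys (fun i : Fin n => mm n i) (2 * ∏ i ∈ Finset.range n, mm n i)
        (cls.map (fun c => c.map (fun l => (l.1, conv n l.2)))) z X w B E Y := by
  unfold sysT pows at h
  simp only [SH_append, SH_cons, SH_map, SH_flatMap] at h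
  obtain ⟨hz, hn, ⟨hx0, hx1, hw⟩, hB, hE, hY, hC⟩ := h
  obtain ⟨hM, hP⟩ := nums_sound hn
  simp only [v4, Tm.eval, gT] at hz hx0 hB
  set b : ℕ := 2 * ∏ i ∈ Finset.range n, mm n i with hb
  have hx : ∀ i ≤ n, x (ix 5 i 0 0) = (b : ℚ) ^ (∏ j ∈ Finset.range i, mm n j) := by
    intro i
    induction i with
    | zero =>
      intro _
      rw [hx0, hP, hb]
      push_cast
      ring
    | succ i ih =>
      intro hi
      have h1 := gadget_sound (by omega) (hx1 i (List.mem_range.2 (by omega)))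
      simp only [v4, Tm.eval] at h1
      rw [h1, ih (by omega), Finset.prod_range_succ, pow_mul]
      rfl
  have hXv := hx n le_rfl
  refine ⟨fun i => if i < n then x (ix 0 i 0 0) else 0, x (ix 5 n 0 0),
    fun i => x (ix 6 i 0 0), fun i => x (ix 7 i 0 0), fun i => x (ix 8 i 0 0),
    fun j => if j ∈ cls.flatten.map (fun l => l.2 - n - n) then x (ix 9 j 0 0) else 0,
    ?_, ?_, ?_, ?_, ?_, ?_, ?_⟩
  · intro i
    by_cases hi : i < n
    · simp only [if_pos hi]
      exact hz i (List.mem_range.2 hi)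
    · simp [hi]
  · rw [hXv, prod_mm]
  · intro i
    have h1 := gadget_sound i.2 (hw i (List.mem_range.2 i.2))
    simp only [v4, Tm.eval] at h1
    exact h1.symm
  · intro i
    exact hB i (List.mem_range.2 i.2)
  · intro i
    have h1 := cert_iff.1 (hE i (List.mem_range.2 i.2))
    refine ⟨x (ix 16 i 0 0), x (ix 16 i 1 0), x (ix 16 i 2 0), ?_⟩
    · rw [← h1]
      simp only [two, v4, Tm.eval, hM i i.2]
      ring
  · intro j
    by_cases hj : j ∈ cls.flatten.map (fun l => l.2 - n - n)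
    · simp only [if_pos hj]
      rw [List.mem_map] at hj
      obtain ⟨l, hl, rfl⟩ := hj
      have h1 := cert_iff.1 (hY l hl)
      refine ⟨x (ix 17 (l.2 - n - n) 0 0), x (ix 17 (l.2 - n - n) 1 0),
        x (ix 17 (l.2 - n - n) 2 0), ?_⟩
      · rw [← h1]
        simp only [two, v4, Tm.eval]
        ring
    · simp only [if_neg hj]
      exact ⟨0, 1, 0, by ring⟩
  · intro C hC'
    rw [List.mem_map] at hC'
    obtain ⟨c, hc, rfl⟩ := hC'
    obtain ⟨k, hk⟩ : ∃ k, (c, k) ∈ cls.zipIdx := by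
      obtain ⟨k, hk, hck⟩ := List.getElem_of_mem hc
      exact ⟨k, by rw [List.mem_zipIdx_iff_getElem?]; simp [hck, hk]⟩
    have h1 := cert_iff.1 (hC (c, k) hk)
    refine ⟨x (ix 18 k 0 0), x (ix 18 k 1 0), x (ix 18 k 2 0), ?_⟩
    · rw [← h1]
      simp only [two, Tm.eval, eval_prodT, List.map_map]
      have h2 : c.map ((fun l => 1 - lv (Sum.elim (fun i => if i < n then x (ix 0 i 0 0) else 0)
          (Sum.elim (fun i : Fin n => x (ix 8 i 0 0))
          (fun j => if j ∈ cls.flatten.map (fun l => l.2 - n - n) then x (ix 9 j 0 0) else 0))) l) ∘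
          (fun l => (l.1, conv n l.2))) = c.map ((fun s => s.eval x) ∘ litT n) := by
        apply List.map_congr_left
        intro l hl
        simp only [Function.comp_apply]
        symm
        apply litT_eval
        · intro h3
          simp [h3]
        · intro h3
          rfl
        · have h4 : l.2 - n - n ∈ cls.flatten.map (fun l => l.2 - n - n) :=
            List.mem_map.2 ⟨l, List.mem_flatten.2 ⟨c, hc, hl⟩, rfl⟩
          rw [if_pos h4]
      rw [h2]
      ring

theorem sysT_complete {n : ℕ} {cls : List (List (Bool × ℕ))}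
    {z : ℕ → ℚ} {X : ℚ} {w B E : Fin n → ℚ} {Y : ℕ → ℚ}
    (h : Sys (fun i : Fin n => mm n i) (2 * ∏ i ∈ Finset.range n, mm n i)
        (cls.map (fun c => c.map (fun l => (l.1, conv n l.2)))) z X w B E Y) :
    ∃ x : ℕ → ℚ, SH x (sysT n cls) := by
  classical
  set b : ℕ := 2 * ∏ i ∈ Finset.range n, mm n i with hb
  obtain ⟨hz, hX, hw, hB, hE, hY, hC⟩ := h
  rw [prod_mm] at hX
  choose dE xE yE hE' using hE
  choose dY xY yY hY' using hY
  have hC'' : ∀ k : ℕ, ∃ d x y : ℚ, ∀ c : List (Bool × ℕ), cls[k]? = some c → X + 1 + (2 * ((c.map (fun l =>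
      (l.1, conv n l.2))).map
      (fun l => 1 - lv (Sum.elim z (Sum.elim E Y)) l)).prod) ^ 2 + d ^ 2 =
      (X + 1) * (x ^ 2 + y ^ 2) := by
    intro k
    cases hk : cls[k]? with
    | none => exact ⟨0, 0, 0, by simp⟩
    | some c =>
      obtain ⟨d, x, y, h1⟩ := hC _ (List.mem_map.2 ⟨c, List.mem_of_getElem? hk, rfl⟩)
      refine ⟨d, x, y, ?_⟩
      intro c' hc'
      rw [Option.some.inj hc'] at h1
      exact h1
  choose dC xC yC hC' using hC''
  set ex : ℕ → ℚ := fun i => (b : ℚ) ^ (∏ j ∈ Finset.range i, mm n j) with hex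
  set we : ℕ → ℚ := fun i => if h : i < n then w ⟨i, h⟩ else 0 with hwe
  obtain ⟨x, hx⟩ := exists_assign (fun t a b' c =>
    if t = 0 then z a
    else if t = 1 then (a : ℚ)
    else if t = 2 then (a.factorial : ℚ)
    else if t = 3 then (mm n a : ℚ)
    else if t = 4 then ((∏ j ∈ Finset.range a, mm n j : ℕ) : ℚ)
    else if t = 5 then ex a
    else if t = 6 then we a
    else if t = 7 then (if h : a < n then B ⟨a, h⟩ else 0)
    else if t = 8 then (if h : a < n then E ⟨a, h⟩ else 0)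
    else if t = 9 then Y a
    else if t = 10 then ex a ^ b'.factorial
    else if t = 11 then (ex a ^ b'.factorial) ^ c
    else if t = 12 then (ex a ^ n.factorial) ^ b'
    else if t = 13 then we a ^ b'.factorial
    else if t = 14 then (we a ^ b'.factorial) ^ c
    else if t = 15 then (we a ^ n.factorial) ^ b'
    else if t = 16 then (if h : a < n then (if b' = 0 then dE ⟨a, h⟩ else if b' = 1 then
      xE ⟨a, h⟩ else yE ⟨a, h⟩) else 0)
    else if t = 17 then (if b' = 0 then dY a else if b' = 1 then xY a else yY a)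
    else if b' = 0 then dC a else if b' = 1 then xC a else yC a)
  have e0 : ∀ a b c, x (ix 0 a b c) = z a := fun a b c => by rw [hx]; simp
  have e1 : ∀ a b c, x (ix 1 a b c) = a := fun a b c => by rw [hx]; simp
  have e2 : ∀ a b c, x (ix 2 a b c) = a.factorial := fun a b c => by rw [hx]; simp
  have e3 : ∀ a b c, x (ix 3 a b c) = mm n a := fun a b c => by rw [hx]; simp
  have e4 : ∀ a b c, x (ix 4 a b c) = ((∏ j ∈ Finset.range a, mm n j : ℕ) : ℚ) :=
    fun a b c => by rw [hx]; simp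
  have e5 : ∀ a b c, x (ix 5 a b c) = ex a := fun a b c => by rw [hx]; simp
  have e6 : ∀ a b c, x (ix 6 a b c) = we a := fun a b c => by rw [hx]; simp
  have e7 : ∀ (a : Fin n) b c, x (ix 7 a b c) = B a := fun a b c => by rw [hx]; simp
  have e8 : ∀ (a : Fin n) b c, x (ix 8 a b c) = E a := fun a b c => by rw [hx]; simp
  have e9 : ∀ a b c, x (ix 9 a b c) = Y a := fun a b c => by rw [hx]; simp
  have e10 : ∀ a b c, x (ix 10 a b c) = ex a ^ b.factorial := fun a b c => by rw [hx]; simp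
  have e11 : ∀ a b c, x (ix 11 a b c) = (ex a ^ b.factorial) ^ c :=
    fun a b c => by rw [hx]; simp
  have e12 : ∀ a b c, x (ix 12 a b c) = (ex a ^ n.factorial) ^ b :=
    fun a b c => by rw [hx]; simp
  have e13 : ∀ a b c, x (ix 13 a b c) = we a ^ b.factorial := fun a b c => by rw [hx]; simp
  have e14 : ∀ a b c, x (ix 14 a b c) = (we a ^ b.factorial) ^ c :=
    fun a b c => by rw [hx]; simp
  have e15 : ∀ a b c, x (ix 15 a b c) = (we a ^ n.factorial) ^ b :=
    fun a b c => by rw [hx]; simp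
  have e16 : ∀ (a : Fin n), x (ix 16 a 0 0) = dE a ∧ x (ix 16 a 1 0) = xE a ∧
      x (ix 16 a 2 0) = yE a := fun a => by rw [hx, hx, hx]; simp
  have e17 : ∀ a, x (ix 17 a 0 0) = dY a ∧ x (ix 17 a 1 0) = xY a ∧
      x (ix 17 a 2 0) = yY a := fun a => by rw [hx, hx, hx]; simp
  have e18 : ∀ a, x (ix 18 a 0 0) = dC a ∧ x (ix 18 a 1 0) = xC a ∧
      x (ix 18 a 2 0) = yC a := fun a => by rw [hx, hx, hx]; simp
  have hXe : ex n = X := hX.symm
  refine ⟨x, ?_⟩
  unfold sysT pows
  simp only [SH_append, SH_cons, SH_map, SH_flatMap]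
  refine ⟨?_, ?_, ⟨?_, ?_, ?_⟩, ?_, ?_, ?_, ?_⟩
  · intro i _
    simp only [v4, Tm.eval, e0, hz]
  · exact nums_complete (fun i => e1 i 0 0) (fun i => e2 i 0 0) (fun i => e3 i 0 0)
      (fun i => e4 i 0 0)
  · simp only [v4, Tm.eval, e4, e5, hex, hb]
    push_cast
    simp
    ring
  · intro i hi
    refine gadget_complete (A := ex i) (by simp only [v4, Tm.eval, e5]) ?_
      (fun k => e10 _ _ _) (fun k j => e11 _ _ _) (fun j => e12 _ _ _)
    simp only [v4, Tm.eval, e5, hex]
    rw [Finset.prod_range_succ, pow_mul]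
    rfl
  · intro i hi
    have hi := List.mem_range.1 hi
    refine gadget_complete (A := we i) (by simp only [v4, Tm.eval, e6]) ?_
      (fun k => e13 _ _ _) (fun k j => e14 _ _ _) (fun j => e15 _ _ _)
    simp only [v4, Tm.eval, e5, hXe, hwe, dif_pos hi]
    exact (hw ⟨i, hi⟩).symm
  · intro i hi
    have hi := List.mem_range.1 hi
    have h1 := hB ⟨i, hi⟩
    simp only [v4, Tm.eval, gT, e5, e6, e7 ⟨i, hi⟩, hXe, hwe, dif_pos hi]
    exact h1
  · intro i hi
    have hi := List.mem_range.1 hi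
    rw [cert_iff]
    obtain ⟨f1, f2, f3⟩ := e16 ⟨i, hi⟩
    simp only at f1 f2 f3
    have h1 := hE' ⟨i, hi⟩
    simp only [two, v4, Tm.eval, f1, f2, f3, e5, e3, e7 ⟨i, hi⟩, e8 ⟨i, hi⟩, hXe]
    rw [← h1]
    ring
  · intro l hl
    rw [cert_iff]
    obtain ⟨f1, f2, f3⟩ := e17 (l.2 - n - n)
    have h1 := hY' (l.2 - n - n)
    simp only [two, v4, Tm.eval, f1, f2, f3, e5, e9, hXe]
    rw [← h1]
    ring
  · rintro ⟨c, k⟩ hck
    rw [cert_iff]
    obtain ⟨f1, f2, f3⟩ := e18 k
    have h1 := hC' k c (by rw [List.mem_zipIdx_iff_getElem?] at hck; exact hck)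
    simp only [two, Tm.eval, eval_prodT, List.map_map, f1, f2, f3, e5, hXe]
    rw [← h1]
    have h2 : (c.map (fun l => (l.1, conv n l.2))).map
        (fun l => 1 - lv (Sum.elim z (Sum.elim E Y)) l) = c.map ((fun s => s.eval x) ∘ litT n) := by
      rw [List.map_map]
      apply List.map_congr_left
      intro l hl
      simp only [Function.comp_apply]
      symm
      apply litT_eval
      · intro _; exact e0 _ _ _
      · intro h3; exact e8 ⟨_, h3⟩ _ _
      · exact e9 _ _ _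
    rw [h2]
    ring

end Pool.Agent.NPC.ExQ
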