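import Mathlib

/-!
Auxiliary file: transforming a straight-line program for an integer polynomial `f` with many rational
roots into one with many integer roots (substitution `x = a + f(a)/y`).
-/

set_option autoImplicit false

open Polynomial

namespace Pool.Agent.H638R2.RatInt

/-- `g` is a program of length `n` (indices `0,1` are the inputs `1`, `X`). -/
def IsProg (n : ℕ) (g : ℕ → ℤ[X]) : Prop :=
  g 0 = 1 ∧ g 1 = X ∧ ∀ k, 2 ≤ k → k ≤ n + 1 →
    ∃ i, i < k ∧ ∃ j, j < k ∧ (g k = g i + g j ∨ g k = g i - g j ∨ g k = g i * g j)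

/-- all elements of `S` are computed by one program of length `n`. -/
def Has (n : ℕ) (S : Set ℤ[X]) : Prop :=
  ∃ g, IsProg n g ∧ ∀ s ∈ S, ∃ k ≤ n + 1, g k = s

theorem Has.mono {n : ℕ} {S T : Set ℤ[X]} (h : Has n S) (hT : T ⊆ S) : Has n T := by
  obtain ⟨g, hg, hS⟩ := h
  exact ⟨g, hg, fun s hs => hS s (hT hs)⟩

theorem has_zero : Has 0 {1, X} := by
  refine ⟨fun k => if k = 0 then 1 else X, ⟨by simp, by simp, ?_⟩, ?_⟩
  · intro k hk hk'
    omega
  · intro s hs
    simp only [Set.mem_insert_iff, Set.mem_singleton_iff] at hs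
    rcases hs with h | h
    · exact ⟨0, by omega, by simp [h]⟩
    · exact ⟨1, by omega, by simp [h]⟩

theorem Has.insert_inputs {n : ℕ} {S : Set ℤ[X]} (h : Has n S) : Has n (insert 1 (insert X S)) := by
  obtain ⟨g, hg, hS⟩ := h
  refine ⟨g, hg, ?_⟩
  intro s hs
  simp only [Set.mem_insert_iff] at hs
  rcases hs with h | h | h
  · exact ⟨0, by omega, by rw [h, hg.1]⟩
  · exact ⟨1, by omega, by rw [h, hg.2.1]⟩
  · exact hS s h

/-- one more operation. -/
theorem Has.op {n : ℕ} {S : Set ℤ[X]} (h : Has n S) {a b c : ℤ[X]} (ha : a ∈ S) (hb : b ∈ S)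
    (hc : c = a + b ∨ c = a - b ∨ c = a * b) : Has (n + 1) (insert c S) := by
  obtain ⟨g, ⟨h0, h1, hg⟩, hS⟩ := h
  obtain ⟨i, hi, hia⟩ := hS a ha
  obtain ⟨j, hj, hjb⟩ := hS b hb
  refine ⟨fun k => if k = n + 2 then c else g k, ⟨?_, ?_, ?_⟩, ?_⟩
  · simp [h0]
  · simp [h1]
  · intro k hk hk'
    by_cases hkn : k = n + 2
    · refine ⟨i, by omega, j, by omega, ?_⟩
      have e1 : i ≠ n + 2 := by omega
      have e2 : j ≠ n + 2 := by omega
      simp only [hkn, if_true, e1, e2, if_false, hia, hjb]
      exact hc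
    · obtain ⟨i', hi', j', hj', hh⟩ := hg k hk (by omega)
      refine ⟨i', hi', j', hj', ?_⟩
      have e1 : i' ≠ n + 2 := by omega
      have e2 : j' ≠ n + 2 := by omega
      simp only [hkn, e1, e2, if_false]
      exact hh
  · intro s hs
    rcases Set.mem_insert_iff.1 hs with h | h
    · exact ⟨n + 2, by omega, by simp [h]⟩
    · obtain ⟨k, hk, hks⟩ := hS s h
      refine ⟨k, by omega, ?_⟩
      have e1 : k ≠ n + 2 := by omega
      simp [e1, hks]

theorem Has.le {n n' : ℕ} {S : Set ℤ[X]} (h : Has n S) (hn : n ≤ n') : Has n' S := by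
  obtain ⟨d, rfl⟩ := Nat.exists_eq_add_of_le hn
  clear hn
  induction d with
  | zero => exact h
  | succ d ih =>
    have h1 := ih.insert_inputs
    have h2 := h1.op (a := 1) (b := 1) (c := 1 * 1) (by simp) (by simp) (Or.inr (Or.inr rfl))
    exact h2.mono (fun s hs => by
      simp only [Set.mem_insert_iff]
      tauto)

/-- natural number constants cost at most twice their number of bits. -/
theorem Has.natConst {n : ℕ} {S : Set ℤ[X]} (h : Has n S) (k : ℕ) :
    ∀ a : ℕ, 1 ≤ a → a < 2 ^ k → Has (n + 2 * k) (insert (C (a : ℤ)) S) := by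
  induction k with
  | zero => intro a h1 h2; simp at h2; omega
  | succ k ih =>
    intro a h1 h2
    by_cases ha : a = 1
    · subst ha
      refine (h.insert_inputs.le (n' := n + 2 * (k + 1)) (by omega)).mono ?_
      intro s hs
      simp only [Set.mem_insert_iff] at hs ⊢
      rcases hs with hs | hs
      · left; rw [hs]; simp
      · right; right; exact hs
    · have hb1 : 1 ≤ a / 2 := by omega
      have hb2 : a / 2 < 2 ^ k := by rw [pow_succ] at h2; omega
      have hH := ih (a / 2) hb1 hb2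
      have hH2 := hH.op (a := C ((a / 2 : ℕ) : ℤ)) (b := C ((a / 2 : ℕ) : ℤ))
        (c := C ((a / 2 : ℕ) : ℤ) + C ((a / 2 : ℕ) : ℤ)) (by simp) (by simp) (Or.inl rfl)
      rcases Nat.even_or_odd a with he | ho
      · have : C ((a / 2 : ℕ) : ℤ) + C ((a / 2 : ℕ) : ℤ) = C (a : ℤ) := by
          rw [← C_add]; congr 1
          have : a / 2 + a / 2 = a := by
            obtain ⟨r, hr⟩ := he; omega
          exact_mod_cast this
        rw [this] at hH2
        refine (hH2.le (n' := n + 2 * (k + 1)) (by omega)).mono ?_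
        intro s hs
        simp only [Set.mem_insert_iff] at hs ⊢
        tauto
      · have hH3 := hH2.insert_inputs.op (a := C ((a / 2 : ℕ) : ℤ) + C ((a / 2 : ℕ) : ℤ)) (b := 1)
          (c := C ((a / 2 : ℕ) : ℤ) + C ((a / 2 : ℕ) : ℤ) + 1) (by simp) (by simp) (Or.inl rfl)
        have : C ((a / 2 : ℕ) : ℤ) + C ((a / 2 : ℕ) : ℤ) + 1 = C (a : ℤ) := by
          rw [← C_add, ← C_1, ← C_add]; congr 1
          have : a / 2 + a / 2 + 1 = a := by
            obtain ⟨r, hr⟩ := ho; omega
          exact_mod_cast this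
        rw [this] at hH3
        refine (hH3.le (n' := n + 2 * (k + 1)) (by omega)).mono ?_
        intro s hs
        simp only [Set.mem_insert_iff] at hs ⊢
        tauto

/-- degree bound. -/
theorem natDegree_le {n : ℕ} {g : ℕ → ℤ[X]} (hg : IsProg n g) :
    ∀ k ≤ n, ∀ i ≤ k + 1, (g i).natDegree ≤ 2 ^ k := by
  obtain ⟨h0, h1, hg⟩ := hg
  intro k
  induction k with
  | zero =>
    intro _ i hi
    interval_cases i
    · rw [h0]; simp
    · rw [h1]; simp
  | succ k ih =>
    intro hk i hi
    have ih' := ih (by omega)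
    have hmono : (2:ℕ) ^ k ≤ 2 ^ (k + 1) := Nat.pow_le_pow_right (by norm_num) (by omega)
    by_cases hi' : i ≤ k + 1
    · exact (ih' i hi').trans hmono
    · have hik : i = k + 2 := by omega
      obtain ⟨a, ha, b, hb, hh⟩ := hg i (by omega) (by omega)
      have h3 := ih' a (by omega)
      have h4 := ih' b (by omega)
      rcases hh with hh | hh | hh
      · rw [hh]
        exact ((natDegree_add_le _ _).trans (max_le h3 h4)).trans hmono
      · rw [hh]
        exact ((natDegree_sub_le _ _).trans (max_le h3 h4)).trans hmono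
      · rw [hh, pow_succ]
        have := natDegree_mul_le (p := g a) (q := g b)
        omega

/-- mirror the program at an integer point. -/
theorem Has.mirror {n n0 : ℕ} {g : ℕ → ℤ[X]} (hg : IsProg n g) {S : Set ℤ[X]} {a : ℤ}
    (h : Has n0 S) (ha : C a ∈ S) :
    ∀ k ≤ n, Has (n0 + k) (S ∪ {p | ∃ i ≤ k + 1, p = C ((g i).eval a)}) := by
  obtain ⟨h0, h1, hg⟩ := hg
  intro k
  induction k with
  | zero =>
    intro _
    refine h.insert_inputs.mono ?_
    rintro s (hs | ⟨i, hi, hs⟩)
    · simp [hs]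
    · interval_cases i
      · rw [hs, h0]; simp
      · rw [hs, h1, eval_X]; right; right; exact ha
  | succ k ih =>
    intro hk
    obtain ⟨i, hi, j, hj, hh⟩ := hg (k + 2) (by omega) (by omega)
    have h3 := ih (by omega)
    have h4 := h3.op (a := C ((g i).eval a)) (b := C ((g j).eval a)) (c := C ((g (k+2)).eval a))
      (Or.inr ⟨i, by omega, rfl⟩) (Or.inr ⟨j, by omega, rfl⟩) (by
        rcases hh with hh | hh | hh
        · left; rw [hh]; simp
        · right; left; rw [hh]; simp
        · right; right; rw [hh]; simp)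
    refine h4.mono ?_
    rintro s (hs | ⟨l, hl, hs⟩)
    · right; left; exact hs
    · by_cases hl' : l = k + 2
      · left; rw [hs, hl']
      · right; right; exact ⟨l, by omega, hs⟩

/-- simulate the program at `x = A/B` with numerator-denominator pairs. -/
theorem Has.frac {n n0 : ℕ} {g : ℕ → ℤ[X]} (hg : IsProg n g) {S : Set ℤ[X]} {P : ℤ[X]} {a N : ℤ}
    (h : Has n0 S) (hP : P ∈ S) (hP' : P = C a * X + C N) (hX : X ∈ S) (h1S : (1:ℤ[X]) ∈ S) :
    ∀ k ≤ n, ∃ A B : ℕ → ℤ[X],
      (∀ i ≤ k + 1, ∀ y : ℚ, y ≠ 0 → aeval y (B i) ≠ 0 ∧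
        aeval y (A i) = aeval y (B i) * aeval ((a : ℚ) + N / y) (g i)) ∧
      Has (n0 + 4 * k) (S ∪ {p | ∃ i ≤ k + 1, p = A i ∨ p = B i}) := by
  obtain ⟨h0, h1, hg⟩ := hg
  intro k
  induction k with
  | zero =>
    intro _
    refine ⟨fun i => if i = 0 then 1 else P, fun i => if i = 0 then 1 else X, ?_, ?_⟩
    · intro i hi y hy
      interval_cases i
      · simp [h0]
      · simp only [one_ne_zero, if_false, h1, hP']
        refine ⟨by simpa using hy, ?_⟩
        rw [map_add, map_mul, aeval_X, aeval_C, aeval_C, aeval_X]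
        simp only [algebraMap_int_eq, eq_intCast]
        field_simp
    · refine h.mono ?_
      rintro s (hs | ⟨i, hi, hs⟩)
      · exact hs
      · interval_cases i
        · rcases hs with hs | hs <;> · rw [hs]; simpa using h1S
        · rcases hs with hs | hs
          · rw [hs]; simpa using hP
          · rw [hs]; simpa using hX
  | succ k ih =>
    intro hk
    obtain ⟨A, B, hAB, hH⟩ := ih (by omega)
    obtain ⟨i, hi, j, hj, hh⟩ := hg (k + 2) (by omega) (by omega)
    -- memberships
    have mAi : A i ∈ S ∪ {p | ∃ i ≤ k + 1, p = A i ∨ p = B i} := Or.inr ⟨i, by omega, Or.inl rfl⟩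
    have mBi : B i ∈ S ∪ {p | ∃ i ≤ k + 1, p = A i ∨ p = B i} := Or.inr ⟨i, by omega, Or.inr rfl⟩
    have mAj : A j ∈ S ∪ {p | ∃ i ≤ k + 1, p = A i ∨ p = B i} := Or.inr ⟨j, by omega, Or.inl rfl⟩
    have mBj : B j ∈ S ∪ {p | ∃ i ≤ k + 1, p = A i ∨ p = B i} := Or.inr ⟨j, by omega, Or.inr rfl⟩
    have key : ∀ (A' B' : ℤ[X]), (∀ y : ℚ, y ≠ 0 → aeval y B' ≠ 0 ∧
        aeval y A' = aeval y B' * aeval ((a : ℚ) + N / y) (g (k+2))) →
        Has (n0 + 4 * (k + 1)) (insert A' (insert B' (S ∪ {p | ∃ i ≤ k + 1, p = A i ∨ p = B i}))) →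
        ∃ A B : ℕ → ℤ[X],
      (∀ i ≤ k + 1 + 1, ∀ y : ℚ, y ≠ 0 → aeval y (B i) ≠ 0 ∧
        aeval y (A i) = aeval y (B i) * aeval ((a : ℚ) + N / y) (g i)) ∧
      Has (n0 + 4 * (k + 1)) (S ∪ {p | ∃ i ≤ k + 1 + 1, p = A i ∨ p = B i}) := by
      intro A' B' h3 h4
      refine ⟨fun l => if l = k + 2 then A' else A l, fun l => if l = k + 2 then B' else B l, ?_, ?_⟩
      · intro l hl y hy
        by_cases hl' : l = k + 2
        · simp only [hl', if_true]
          exact h3 y hy
        · simp only [hl', if_false]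
          exact hAB l (by omega) y hy
      · refine h4.mono ?_
        rintro s (hs | ⟨l, hl, hs⟩)
        · right; right; left; exact hs
        · by_cases hl' : l = k + 2
          · simp only [hl', if_true] at hs
            rcases hs with hs | hs
            · left; exact hs
            · right; left; exact hs
          · simp only [hl', if_false] at hs
            right; right; right
            exact ⟨l, by omega, hs⟩
    rcases hh with hh | hh | hh
    · apply key (A i * B j + A j * B i) (B i * B j)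
      · intro y hy
        obtain ⟨b1, e1⟩ := hAB i (by omega) y hy
        obtain ⟨b2, e2⟩ := hAB j (by omega) y hy
        refine ⟨by rw [map_mul]; exact mul_ne_zero b1 b2, ?_⟩
        rw [hh]; simp only [map_add, map_mul, e1, e2]; ring
      · have s1 := hH.op (c := A i * B j) mAi mBj (Or.inr (Or.inr rfl))
        have s2 := s1.op (c := A j * B i) (Or.inr mAj) (Or.inr mBi) (Or.inr (Or.inr rfl))
        have s3 := s2.op (c := B i * B j) (Or.inr (Or.inr mBi)) (Or.inr (Or.inr mBj))
          (Or.inr (Or.inr rfl))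
        have s4 := s3.op (a := A i * B j) (b := A j * B i) (c := A i * B j + A j * B i)
          (by simp) (by simp) (Or.inl rfl)
        refine (s4.le (n' := n0 + 4 * (k + 1)) (by omega)).mono ?_
        intro s hs
        simp only [Set.mem_insert_iff] at hs ⊢
        tauto
    · apply key (A i * B j - A j * B i) (B i * B j)
      · intro y hy
        obtain ⟨b1, e1⟩ := hAB i (by omega) y hy
        obtain ⟨b2, e2⟩ := hAB j (by omega) y hy
        refine ⟨by rw [map_mul]; exact mul_ne_zero b1 b2, ?_⟩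
        rw [hh]; simp only [map_sub, map_mul, e1, e2]; ring
      · have s1 := hH.op (c := A i * B j) mAi mBj (Or.inr (Or.inr rfl))
        have s2 := s1.op (c := A j * B i) (Or.inr mAj) (Or.inr mBi) (Or.inr (Or.inr rfl))
        have s3 := s2.op (c := B i * B j) (Or.inr (Or.inr mBi)) (Or.inr (Or.inr mBj))
          (Or.inr (Or.inr rfl))
        have s4 := s3.op (a := A i * B j) (b := A j * B i) (c := A i * B j - A j * B i)
          (by simp) (by simp) (Or.inr (Or.inl rfl))
        refine (s4.le (n' := n0 + 4 * (k + 1)) (by omega)).mono ?_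
        intro s hs
        simp only [Set.mem_insert_iff] at hs ⊢
        tauto
    · apply key (A i * A j) (B i * B j)
      · intro y hy
        obtain ⟨b1, e1⟩ := hAB i (by omega) y hy
        obtain ⟨b2, e2⟩ := hAB j (by omega) y hy
        refine ⟨by rw [map_mul]; exact mul_ne_zero b1 b2, ?_⟩
        rw [hh]; simp only [map_mul, e1, e2]; ring
      · have s1 := hH.op (c := B i * B j) mBi mBj (Or.inr (Or.inr rfl))
        have s2 := s1.op (c := A i * A j) (Or.inr mAi) (Or.inr mAj) (Or.inr (Or.inr rfl))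
        refine (s2.le (n' := n0 + 4 * (k + 1)) (by omega)).mono ?_
        intro s hs
        simp only [Set.mem_insert_iff] at hs ⊢
        tauto

/-- divisibility: `f(a) / (x - a)` is an integer for every rational root `x` of `f`. -/
theorem int_of_root {f : ℤ[X]} {a : ℤ} (ha : f.eval a ≠ 0) {x : ℚ} (hx : aeval x f = 0) :
    x - a ≠ 0 ∧ ∃ y : ℤ, (y : ℚ) = ((f.eval a : ℤ) : ℚ) / (x - a) := by
  have hne : x - a ≠ 0 := by
    intro h
    have hxa : x = a := by linarith
    apply ha
    rw [hxa] at hx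
    have : aeval (a : ℚ) f = ((f.eval a : ℤ) : ℚ) := by
      have := Polynomial.aeval_algebraMap_apply ℚ a f
      simpa using this
    rw [this] at hx
    exact_mod_cast hx
  refine ⟨hne, ?_⟩
  have hroot : aeval (x - a) (f.comp (X + C a)) = 0 := by
    rw [aeval_comp]
    simp [hx]
  have hdvd := num_dvd_of_is_root hroot
  rw [coeff_zero_eq_eval_zero, eval_comp] at hdvd
  simp only [eval_add, eval_X, eval_C, zero_add] at hdvd
  obtain ⟨q, hq⟩ := hdvd
  set r : ℚ := x - a with hr
  have hmk := IsFractionRing.mk'_num_den ℤ r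
  have hden : ((IsFractionRing.den ℤ r : ℤ) : ℚ) ≠ 0 := by
    have := nonZeroDivisors.coe_ne_zero (IsFractionRing.den ℤ r)
    exact_mod_cast this
  have hr2 : r = (IsFractionRing.num ℤ r : ℚ) / ((IsFractionRing.den ℤ r : ℤ) : ℚ) := by
    have := IsFractionRing.mk'_num_den' ℤ r
    simpa using this.symm
  have hnum : (IsFractionRing.num ℤ r : ℚ) ≠ 0 := by
    intro h
    rw [h] at hr2
    simp at hr2
    exact hne hr2
  refine ⟨q * (IsFractionRing.den ℤ r : ℤ), ?_⟩
  rw [hq, eq_div_iff hne]
  push_cast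
  have h3 : r * ((IsFractionRing.den ℤ r : ℤ) : ℚ) = (IsFractionRing.num ℤ r : ℚ) := by
    have h4 := (eq_div_iff hden).1 hr2
    exact h4
  rw [← h3]
  ring

/-- The main transfer: a nonzero `f` computed with `L` operations gives a nonzero `h` computed with
`7 L + 6` operations having at least as many integer roots as `f` has rational roots. -/
theorem transfer {L : ℕ} {g : ℕ → ℤ[X]} (hg : IsProg L g) {m : ℕ} (hm : m ≤ L + 1)
    (hf : g m ≠ 0) :
    ∃ h : ℤ[X], h ≠ 0 ∧ Has (7 * L + 6) {h} ∧
      ((g m).map (Int.castRingHom ℚ)).roots.toFinset.card ≤ h.roots.toFinset.card := by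
  classical
  -- choose `a`
  have hdeg : (g m).natDegree ≤ 2 ^ L := natDegree_le hg L le_rfl m hm
  obtain ⟨a, ha1, ha2, ha⟩ : ∃ a : ℕ, 1 ≤ a ∧ a < 2 ^ (L + 2) ∧ (g m).eval (a : ℤ) ≠ 0 := by
    by_contra hcon
    push Not at hcon
    have hsub : (Finset.Ico 1 (2 ^ L + 2)).image (fun a : ℕ => (a : ℤ)) ⊆ (g m).roots.toFinset := by
      intro z hz
      rw [Finset.mem_image] at hz
      obtain ⟨a, ha, rfl⟩ := hz
      rw [Finset.mem_Ico] at ha
      rw [Multiset.mem_toFinset, mem_roots hf]
      apply hcon a ha.1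
      have : 1 ≤ 2 ^ L := Nat.one_le_two_pow
      have e : 2 ^ (L + 2) = 4 * 2 ^ L := by ring
      omega
    have hc := Finset.card_le_card hsub
    rw [Finset.card_image_of_injective _ Nat.cast_injective, Nat.card_Ico] at hc
    have h2 : (g m).roots.toFinset.card ≤ (g m).natDegree :=
      (Multiset.toFinset_card_le _).trans (card_roots' _)
    omega
  set N : ℤ := (g m).eval (a : ℤ) with hN
  -- constants
  have c0 : Has 0 {1, X} := has_zero
  have c1 := c0.natConst (L + 2) a ha1 ha2
  have c2 := c1.mirror hg (a := (a : ℤ)) (by simp) L le_rfl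
  have c3 : Has (0 + 2 * (L + 2) + L) {1, X, C (a : ℤ), C N} := by
    refine c2.mono ?_
    intro s hs
    simp only [Set.mem_insert_iff, Set.mem_singleton_iff] at hs
    rcases hs with hs | hs | hs | hs
    · left; simp [hs]
    · left; simp [hs]
    · left; simp [hs]
    · right; exact ⟨m, hm, by rw [hs]⟩
  have c4 := c3.op (a := C (a : ℤ)) (b := X) (c := C (a : ℤ) * X) (by simp) (by simp)
    (Or.inr (Or.inr rfl))
  have c5 := c4.op (a := C (a : ℤ) * X) (b := C N) (c := C (a : ℤ) * X + C N) (by simp) (by simp)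
    (Or.inl rfl)
  obtain ⟨A, B, hAB, hH⟩ := c5.frac hg (P := C (a : ℤ) * X + C N) (a := (a:ℤ)) (N := N)
    (by simp) rfl (by simp) (by simp) L le_rfl
  -- for every nonzero rational `y` the value of `A m`
  have hval : ∀ y : ℚ, y ≠ 0 → aeval y (B m) ≠ 0 ∧
      aeval y (A m) = aeval y (B m) * aeval (((a : ℤ) : ℚ) + N / y) (g m) := fun y hy =>
    hAB m hm y hy
  have hNQ : (N : ℚ) ≠ 0 := by exact_mod_cast ha
  have hA0 : A m ≠ 0 := by
    intro h0
    -- every rational `x ≠ a` would be a root of `g m`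
    have hall : ∀ k : ℕ, aeval (((a : ℤ) : ℚ) + (k + 1 : ℕ)) (g m) = 0 := by
      intro k
      have hy : (N : ℚ) / ((k + 1 : ℕ) : ℚ) ≠ 0 := by
        apply div_ne_zero hNQ
        exact_mod_cast Nat.succ_ne_zero k
      obtain ⟨hb, he⟩ := hval _ hy
      rw [h0, map_zero] at he
      have : (N : ℚ) / ((N : ℚ) / ((k + 1 : ℕ) : ℚ)) = ((k + 1 : ℕ) : ℚ) := by
        have : ((k + 1 : ℕ) : ℚ) ≠ 0 := by exact_mod_cast Nat.succ_ne_zero k
        field_simp
      rw [this] at he
      rcases mul_eq_zero.1 he.symm with h | h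
      · exact absurd h hb
      · exact h
    have hmap0 : (g m).map (Int.castRingHom ℚ) = 0 := by
      apply Polynomial.eq_zero_of_infinite_isRoot
      refine Set.Infinite.mono ?_ (Set.infinite_range_of_injective
        (f := fun k : ℕ => (((a : ℤ) : ℚ) + (k + 1 : ℕ))) ?_)
      · rintro x ⟨k, rfl⟩
        have := hall k
        rw [Set.mem_ofPred_eq, IsRoot.def, eval_map]
        exact this
      · intro k l hkl
        have : ((k + 1 : ℕ) : ℚ) = ((l + 1 : ℕ) : ℚ) := by
          simpa using hkl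
        have := Nat.cast_injective this
        omega
    apply hf
    have hinj : Function.Injective (Int.castRingHom ℚ) := Int.cast_injective
    exact (Polynomial.map_eq_zero_iff hinj).1 hmap0
  refine ⟨A m, hA0, ?_, ?_⟩
  · refine (hH.le (n' := 7 * L + 6) (by omega)).mono ?_
    intro s hs
    rw [Set.mem_singleton_iff] at hs
    right
    exact ⟨m, hm, Or.inl hs⟩
  · -- injection of roots
    have hmapne : (g m).map (Int.castRingHom ℚ) ≠ 0 := by
      intro h
      have hinj : Function.Injective (Int.castRingHom ℚ) := Int.cast_injective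
      exact hf ((Polynomial.map_eq_zero_iff hinj).1 h)
    have hroot : ∀ x ∈ ((g m).map (Int.castRingHom ℚ)).roots.toFinset, aeval x (g m) = 0 := by
      intro x hx
      rw [Multiset.mem_toFinset, mem_roots hmapne, IsRoot.def, eval_map] at hx
      exact hx
    have hex : ∀ x ∈ ((g m).map (Int.castRingHom ℚ)).roots.toFinset, ∃ y : ℤ,
        x - ((a : ℤ) : ℚ) ≠ 0 ∧ (y : ℚ) = (N : ℚ) / (x - ((a : ℤ) : ℚ)) := by
      intro x hx
      obtain ⟨h1, y, hy⟩ := int_of_root (a := (a : ℤ)) ha (hroot x hx)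
      exact ⟨y, h1, hy⟩
    choose! φ hφ1 hφ2 using hex
    apply Finset.card_le_card_of_injOn φ
    · intro x hx
      have hx' : x ∈ ((g m).map (Int.castRingHom ℚ)).roots.toFinset := hx
      have h1 := hφ1 x hx'
      have h2 := hφ2 x hx'
      have hy : ((φ x : ℤ) : ℚ) ≠ 0 := by rw [h2]; exact div_ne_zero hNQ h1
      obtain ⟨hb, he⟩ := hval _ hy
      have harg : (((a : ℤ) : ℚ) + N / ((φ x : ℤ) : ℚ)) = x := by
        rw [h2]; field_simp; ring
      rw [harg, hroot x hx', mul_zero] at he
      have hint : aeval ((φ x : ℤ) : ℚ) (A m) = (((A m).eval (φ x) : ℤ) : ℚ) := by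
        have := Polynomial.aeval_algebraMap_apply ℚ (φ x) (A m)
        simpa using this
      rw [hint] at he
      have he' : (A m).eval (φ x) = 0 := by exact_mod_cast he
      simp only [Finset.mem_coe, Multiset.mem_toFinset]
      rw [mem_roots hA0]
      exact he'
    · intro x hx x' hx' hxx
      have h1 := hφ1 x hx
      have h2 := hφ2 x hx
      have h1' := hφ1 x' hx'
      have h2' := hφ2 x' hx'
      rw [hxx, h2'] at h2
      have : (x' - ((a : ℤ) : ℚ)) = (x - ((a : ℤ) : ℚ)) := by
        have := (div_eq_div_iff h1' h1).1 h2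
        have h5 := mul_left_cancel₀ hNQ this
        exact h5.symm
      linarith

end Pool.Agent.H638R2.RatInt
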