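import Mathlib
import Pool.Agent.H638R2.QEq

/-!
The existential theory of the field of rational numbers is hard for the third level `Σ₃ᵖ` of the
polynomial hierarchy under polynomial-time many-one reductions, even for sentences `∃ x, t(x) = 0`
with a single polynomial equation.
-/

set_option autoImplicit false

open Pool.Agent.NPC Pool.Agent.NPC.ExQ Pool.Agent.NPC.S3

namespace Pool.Agent.H638R2.Sigma3Hard

theorem result :
    ∀ L : Set (List Bool), InSigma3 L →
      ∃ t : List Bool → Tm, PolyTime (fun w => bits (Fm.eq (t w) Tm.zero)) ∧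
        ∀ w : List Bool, w ∈ L ↔ TrueQ (Fm.eq (t w) Tm.zero) :=
  fun _ hL => Pool.Agent.NPC.ExQ.main hL

end Pool.Agent.H638R2.Sigma3Hard
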